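import Pool.Agent.Helper71.JN.SheetD
import Pool.Agent.Helper45.SUBK.FINK

/-!
Project JN, row FINU: the uniform theorem for a finitely generated group of algebraic numbers, from
the theorem over number fields.
-/

set_option autoImplicit false

namespace Pool.Agent.Helper77.JN

open Polynomial Filter Finset Pool.Agent.Helper70.SUB Pool.Agent.Helper77.SUBK
  Pool.Agent.Helper70.SUBL Pool.Agent.Helper70.SUBW Pool.Agent.Helper71.JN

/-- the size of an element of `M` from the size of its image in `ℂ` -/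
theorem hbz_of {M : Type} [Field M] [NumberField M] (φ : M →+* ℂ) {H : ℝ} {z : M} {w : ℂ}
    (hz : φ z = w) (h1 : ∃ D : ℕ, D ≠ 0 ∧ (D : ℝ) ≤ H ∧ IsIntegral ℤ ((D : ℂ) * w))
    (h2 : ∀ z' : ℂ, aeval z' (minpoly ℚ w) = 0 → ‖z'‖ ≤ H) : HBZ φ H z := by
  subst hz
  refine ⟨?_, fun σ => ?_⟩
  · obtain ⟨D, hD0, hDH, hD⟩ := h1
    refine ⟨D, hD0, hDH, ?_⟩
    have e : (D : ℂ) * φ z = φ.toIntAlgHom ((D : M) * z) := by
      simp
    rw [e] at hD
    exact (isIntegral_algHom_iff φ.toIntAlgHom φ.injective).1 hD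
  · refine h2 _ ?_
    have e1 : minpoly ℚ (φ z) = minpoly ℚ z := by
      have := minpoly.algHom_eq (RingHom.toRatAlgHom φ) φ.injective z
      simpa using this
    have e2 : aeval (σ z) (minpoly ℚ z) = 0 := by
      have h3 := minpoly.aeval ℚ z
      have h4 : aeval (σ z) (minpoly ℚ z) = σ (aeval z (minpoly ℚ z)) := by
        rw [← Polynomial.aeval_algHom_apply]
      rw [h4, h3, map_zero]
    have e3 : aeval (φ (σ z)) (minpoly ℚ z) = φ (aeval (σ z) (minpoly ℚ z)) := by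
      have := Polynomial.aeval_algHom_apply (RingHom.toRatAlgHom φ) (σ z) (minpoly ℚ z)
      simpa using this
    rw [e1, e3, e2, map_zero]

/-- (FINU) -/
theorem FINU (hT1U : ST_T1U) (hSVB : ST_SVB) : ST_FINU := by
  classical
  intro Γ t ε η B hfg halg hε hη
  obtain ⟨M, iF, iN, iG, S, φ, ζ, hS, hζ, hΓ⟩ := Helper45.SUBK.field_exists hSVB Γ hfg halg
  obtain ⟨h1, h2, h3, h4, h5, h6, h7, h8, h9, h10, h11, h12⟩ := hSVB M
  obtain ⟨κ, hκ, C, hC⟩ := hT1U M S φ ζ t ε η B hS hζ hε hη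
  have hs : ∀ (H H' : ℝ) (z : ℂ), Sparse Γ t H H' z → ∃ (c : Fin t → ℤ) (a : Fin t → M),
      (∀ i, SV S (a i)) ∧ (∀ i, |(c i : ℝ)| ≤ H) ∧ φ (∑ i, (c i : M) * a i) = z ∧
      HBZ φ H' (∑ i, (c i : M) * a i) := by
    intro H H' z hz
    obtain ⟨⟨c, γ, hγ, hc, hzs⟩, hd, hconj⟩ := hz
    choose ρ hρS hρ using fun i => hΓ (γ i) (hγ i)
    have e : φ (∑ i, (c i : M) * ρ i ^ (6 : ℤ)) = z := by
      rw [map_sum, hzs]
      refine Finset.sum_congr rfl fun i _ => ?_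
      rw [map_mul, map_intCast, map_zpow₀, ← hρ i]
      norm_cast
    exact ⟨c, fun i => ρ i ^ (6 : ℤ), fun i => h8 S _ _ (hρS i), hc, e, hbz_of φ e hd hconj⟩
  refine ⟨κ, hκ, C, ?_⟩
  intro x y p q hp hq hq0 hxy hne
  obtain ⟨c, a, ha, hc, hpa, hpB⟩ := hs _ _ _ hp
  obtain ⟨d, b, hb, hd, hqb, hqB⟩ := hs _ _ _ hq
  refine hC c d a b x y ha hb hc hd hpB hqB ?_ ?_ hne
  · intro h0
    exact hq0 (by rw [← hqb, h0, map_zero])
  · rw [map_div₀, hpa, hqb]
    exact hxy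

end Pool.Agent.Helper77.JN
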