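import Pool.Agent.Helper47.JN.RK

/-!
Project JN, theorem W+, part (c): an integral logarithmic derivative on `y ^ 2 = x ^ 3 + d`.
-/

set_option autoImplicit false

namespace Pool.Agent.Helper77.JN

open MvPolynomial Finset Pool.Agent.Helper71.JN Pool.Agent.Helper47.JN

section poly

variable {F : Type} [Field F] {r : ℕ}

/-- logarithmic derivation -/
noncomputable def lder (k : Fin r) (f : MvPolynomial (Fin r) F) : MvPolynomial (Fin r) F :=
  X k * pderiv k f

theorem lder_add (k : Fin r) (f g : MvPolynomial (Fin r) F) :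
    lder k (f + g) = lder k f + lder k g := by
  unfold lder
  rw [map_add, mul_add]

theorem lder_mul (k : Fin r) (f g : MvPolynomial (Fin r) F) :
    lder k (f * g) = f * lder k g + g * lder k f := by
  unfold lder
  rw [pderiv_mul]
  ring

theorem lder_C (k : Fin r) (c : F) : lder k (C c) = 0 := by
  unfold lder
  rw [pderiv_C, mul_zero]

theorem lder_neg (k : Fin r) (f : MvPolynomial (Fin r) F) : lder k (-f) = -lder k f := by
  unfold lder
  rw [map_neg, mul_neg]

theorem coeff_lder (k : Fin r) (f : MvPolynomial (Fin r) F) (n : Fin r →₀ ℕ) :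
    (lder k f).coeff n = (n k : F) * f.coeff n := by
  classical
  induction f using MvPolynomial.induction_on' with
  | monomial m c =>
    unfold lder
    rw [X_mul_pderiv_monomial, coeff_smul, coeff_monomial]
    split_ifs with h
    · rw [h, nsmul_eq_mul]
    · rw [smul_zero, mul_zero]
  | add f g hf hg =>
    rw [lder_add, coeff_add, coeff_add, hf, hg]
    ring

theorem support_lder (k : Fin r) (f : MvPolynomial (Fin r) F) :
    (lder k f).support ⊆ f.support := by
  intro n hn
  rw [mem_support_iff, coeff_lder] at hn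
  rw [mem_support_iff]
  exact right_ne_zero_of_mul hn

theorem degree_eq [CharZero F] {f g : MvPolynomial (Fin r) F} (hf : f ≠ 0) (hg : g ≠ 0)
    (h : ∀ k, g * lder k f = f * lder k g) :
    (MonomialOrder.lex (σ := Fin r)).degree f = (MonomialOrder.lex (σ := Fin r)).degree g := by
  classical
  set m := MonomialOrder.lex (σ := Fin r) with hm
  have hle : ∀ (k : Fin r) (p : MvPolynomial (Fin r) F),
      m.toSyn (m.degree (lder k p)) ≤ m.toSyn (m.degree p) := by
    intro k p
    rw [m.degree_le_iff]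
    intro n hn
    exact m.le_degree (support_lder k p hn)
  ext k
  have h1 := congrArg (fun p => p.coeff (m.degree g + m.degree f)) (h k)
  beta_reduce at h1
  rw [m.coeff_mul_of_add_of_degree_le le_rfl (hle k f)] at h1
  have h2 : (f * lder k g).coeff (m.degree g + m.degree f) =
      f.coeff (m.degree f) * (lder k g).coeff (m.degree g) := by
    rw [add_comm]
    exact m.coeff_mul_of_add_of_degree_le le_rfl (hle k g)
  rw [h2, coeff_lder, coeff_lder] at h1
  have hf1 : f.coeff (m.degree f) ≠ 0 := m.leadingCoeff_ne_zero_iff.2 hf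
  have hg1 : g.coeff (m.degree g) ≠ 0 := m.leadingCoeff_ne_zero_iff.2 hg
  have h3 : ((m.degree f k : ℕ) : F) = ((m.degree g k : ℕ) : F) := by
    have h4 : (((m.degree f k : ℕ) : F) - ((m.degree g k : ℕ) : F)) *
        (g.coeff (m.degree g) * f.coeff (m.degree f)) = 0 := by
      linear_combination h1
    rcases mul_eq_zero.1 h4 with h5 | h5
    · exact sub_eq_zero.1 h5
    · exact absurd h5 (mul_ne_zero hg1 hf1)
  exact_mod_cast h3

/-- two polynomials with the same logarithmic derivatives are proportional -/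
theorem kernel [CharZero F] {f g : MvPolynomial (Fin r) F} (hg : g ≠ 0)
    (h : ∀ k, g * lder k f = f * lder k g) : ∃ c : F, f = C c * g := by
  classical
  set m := MonomialOrder.lex (σ := Fin r) with hm
  by_cases hf : f = 0
  · exact ⟨0, by rw [hf, C_0, zero_mul]⟩
  have hg1 : g.coeff (m.degree g) ≠ 0 := m.leadingCoeff_ne_zero_iff.2 hg
  set c : F := f.coeff (m.degree g) / g.coeff (m.degree g) with hc
  refine ⟨c, ?_⟩
  by_contra hne
  have hf' : f + -(C c * g) ≠ 0 := by
    rw [← sub_eq_add_neg]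
    exact sub_ne_zero.2 hne
  have h' : ∀ k, g * lder k (f + -(C c * g)) = (f + -(C c * g)) * lder k g := by
    intro k
    rw [lder_add, lder_neg, lder_mul, lder_C]
    linear_combination h k
  have h1 := degree_eq hf' hg h'
  have h2 : (f + -(C c * g)).coeff (m.degree (f + -(C c * g))) ≠ 0 :=
    m.leadingCoeff_ne_zero_iff.2 hf'
  rw [h1, coeff_add, coeff_neg, coeff_C_mul, hc, div_mul_cancel₀ _ hg1, add_neg_cancel] at h2
  exact h2 rfl

/-- coprime form of a point on `y ^ 2 = x ^ 3 + d` -/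
theorem coprime_form {a b c d δ : MvPolynomial (Fin r) F} (hb : b ≠ 0) (hd : d ≠ 0)
    (hab : IsRelPrime a b) (hcd : IsRelPrime c d) (h : c ^ 2 * b ^ 3 = d ^ 2 * (a ^ 3 + δ * b ^ 3)) :
    ∃ A B E : MvPolynomial (Fin r) F, E ≠ 0 ∧ IsRelPrime B E ∧ a * E ^ 2 = A * b ∧
      c * E ^ 3 = B * d := by
  have h1 : b ^ 3 ∣ d ^ 2 := by
    have h2 : b ^ 3 ∣ d ^ 2 * (a ^ 3 + δ * b ^ 3) := ⟨c ^ 2, by rw [← h]; ring⟩
    refine IsRelPrime.dvd_of_dvd_mul_right ?_ h2
    intro e he1 he2
    have he3 : e ∣ a ^ 3 := by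
      have := dvd_sub he2 (he1.mul_left δ)
      simpa using this
    exact (hab.pow (m := 3) (n := 3)) he3 he1
  have h2 : d ^ 2 ∣ b ^ 3 := by
    have h3 : d ^ 2 ∣ c ^ 2 * b ^ 3 := ⟨_, h⟩
    exact IsRelPrime.dvd_of_dvd_mul_left (hcd.symm.pow (m := 2) (n := 2)) h3
  obtain ⟨u, hu⟩ := associated_of_dvd_dvd h1 h2
  have h3 : b ∣ d := by
    rw [← IsIntegrallyClosed.pow_dvd_pow_iff (n := 2) (by norm_num)]
    exact (Dvd.intro b (by ring)).trans h1
  obtain ⟨E, hE⟩ := h3
  have hE0 : E ≠ 0 := by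
    rintro rfl
    exact hd (by rw [hE, mul_zero])
  have hE2 : E ^ 2 = b * u := by
    have h4 : b ^ 2 * E ^ 2 = b ^ 2 * (b * u) := by
      rw [← mul_pow, ← hE, ← hu]
      ring
    exact mul_left_cancel₀ (pow_ne_zero 2 hb) h4
  refine ⟨a * u, c * u, E, hE0, ?_, by rw [hE2]; ring, ?_⟩
  · have h5 : IsRelPrime c E := IsRelPrime.of_dvd_right hcd ⟨b, by rw [hE]; ring⟩
    intro e he1 he2
    exact h5 ((Units.dvd_mul_right).1 he1) he2
  · calc c * E ^ 3 = c * E * E ^ 2 := by ring
      _ = c * u * d := by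
          rw [hE2, hE]
          ring

end poly

variable {F Ω : Type} [Field F] [Field Ω] [Algebra F Ω] {I : Type} [Fintype I] {r : ℕ}

theorem lau_ev (D : SSF F Ω I r) (i : I) (f : MvPolynomial (Fin r) F) (n : Fin r →₀ ℕ)
    (hn : n ∈ f.support) : D.nu i (mon D.w (nz n)) ≤ D.nu i (D.ev f) := by
  classical
  set g : (Fin r → ℤ) → (Fin r →₀ ℕ) := fun m =>
    Finsupp.equivFunOnFinite.symm fun k => (m k).toNat with hg
  have hgn : ∀ n : Fin r →₀ ℕ, g (nz n) = n := by
    intro n
    ext k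
    simp [hg, nz]
  have h1 := D.lau i (f.support.image nz) (fun m => f.coeff (g m)) (nz n)
    (Finset.mem_image.2 ⟨n, hn, rfl⟩) (by
      simp only [hgn]
      exact MvPolynomial.mem_support_iff.1 hn)
  rw [Finset.sum_image fun a _ b _ h => nz_inj h] at h1
  simp only [hgn] at h1
  rwa [← ev_sum] at h1

theorem nu_lder (D : SSF F Ω I r) (i : I) (k : Fin r) (f : MvPolynomial (Fin r) F) :
    D.nu i (D.ev (lder k f)) ≤ D.nu i (D.ev f) := by
  rw [ev_sum D (lder k f)]
  refine nu_sum_le D i _ ((D.nu i).nonneg _) _ _ fun n hn => ?_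
  rw [nu_term D i _ (MvPolynomial.mem_support_iff.1 hn)]
  exact lau_ev D i f n (support_lder k f hn)

theorem nu_nat (D : SSF F Ω I r) (i : I) (n : ℕ) : D.nu i (n : Ω) ≤ 1 := by
  induction n with
  | zero => simp
  | succ n ih =>
    rw [Nat.cast_succ]
    exact (D.ult i _ _).trans (max_le ih (by rw [map_one]))

theorem nu_nat_mul (D : SSF F Ω I r) (i : I) (n : ℕ) (z : Ω) :
    D.nu i ((n : Ω) * z) ≤ D.nu i z := by
  rw [map_mul]
  exact mul_le_of_le_one_left ((D.nu i).nonneg z) (nu_nat D i n)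

theorem mon_nsmul (D : SSF F Ω I r) (m : Fin r → ℤ) (n : ℕ) :
    mon D.w (n • m) = mon D.w m ^ n := by
  induction n with
  | zero => rw [zero_smul, pow_zero, mon_zero]
  | succ n ih => rw [succ_nsmul, mon_add D.w0, ih, pow_succ]

/-- no point of `y ^ 2 = x ^ 3 + d` over `K` is large at all the places in `J` -/
theorem INTZ [CharZero Ω] (D : SSF F Ω I r) (J : Finset I) (hJ : J.Nonempty) (α : ℝ)
    (hα : α < 1) (x y d : Ω) (hx : x ∈ D.K) (hy : y ∈ D.K) (hd : d ∈ D.R) (hd0 : d ≠ 0)
    (heq : y ^ 2 = x ^ 3 + d) (hsx : ∀ i ∈ J, D.nu i x = Real.exp 2)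
    (hsy : ∀ i ∈ J, D.nu i y = Real.exp 3) (hsd : ∀ i ∈ J, D.nu i d ≤ Real.exp α)
    (hfd : ∀ i, i ∉ J → D.nu i d ≤ 1) : False := by
  classical
  have hF : CharZero F := (algebraMap F Ω).charZero
  -- clear the monomial denominator of `d`
  obtain ⟨m0, p0, hdp⟩ := R_form D d hd
  set M : Fin r → ℤ := fun k => |m0 k| with hM
  set μ : Ω := mon D.w M with hμ
  have hμ0 : μ ≠ 0 := mon_ne D.w0 M
  obtain ⟨q0, hq0⟩ := exists_nat D (6 • M + m0) (by
    intro k
    have h1 := neg_abs_le (m0 k)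
    have h2 := abs_nonneg (m0 k)
    have h3 : (6 • M + m0) k = 6 * |m0 k| + m0 k := by
      rw [Pi.add_apply, Pi.smul_apply, hM, nsmul_eq_mul]
      rfl
    rw [Pi.zero_apply, h3]
    linarith)
  set δ : MvPolynomial (Fin r) F := q0 * p0 with hδ
  have hevδ : D.ev δ = μ ^ 6 * d := by
    rw [hδ, map_mul, ← hq0, mon_add D.w0, mon_nsmul, hdp, hμ]
    ring
  have hμK : μ ∈ D.K := R_le_K D _ (mon_mem D M)
  obtain ⟨p1, q1, hq1, hx1⟩ := K_form D (μ ^ 2 * x) (mul_mem (pow_mem hμK 2) hx)
  obtain ⟨p2, q2, hq2, hy1⟩ := K_form D (μ ^ 3 * y) (mul_mem (pow_mem hμK 3) hy)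
  obtain ⟨a, b, g1, hab, hg1a, hg1b⟩ :=
    UniqueFactorizationMonoid.exists_reduced_factors' p1 q1 hq1
  obtain ⟨c, e, g2, hce, hg2c, hg2e⟩ :=
    UniqueFactorizationMonoid.exists_reduced_factors' p2 q2 hq2
  have hb0 : b ≠ 0 := by
    rintro rfl
    exact hq1 (by rw [← hg1b, mul_zero])
  have he0 : e ≠ 0 := by
    rintro rfl
    exact hq2 (by rw [← hg2e, mul_zero])
  have hg10 : g1 ≠ 0 := by
    rintro rfl
    exact hq1 (by rw [← hg1b, zero_mul])
  have hg20 : g2 ≠ 0 := by
    rintro rfl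
    exact hq2 (by rw [← hg2e, zero_mul])
  have hevb : D.ev b ≠ 0 := ev_ne D b hb0
  have heve : D.ev e ≠ 0 := ev_ne D e he0
  have hx2 : μ ^ 2 * x * D.ev b = D.ev a := by
    rw [hx1, ← hg1a, ← hg1b, map_mul, map_mul]
    have := ev_ne D g1 hg10
    field_simp
  have hy2 : μ ^ 3 * y * D.ev e = D.ev c := by
    rw [hy1, ← hg2c, ← hg2e, map_mul, map_mul]
    have := ev_ne D g2 hg20
    field_simp
  have h1 : c ^ 2 * b ^ 3 = e ^ 2 * (a ^ 3 + δ * b ^ 3) := by
    apply ev_inj D
    simp only [map_mul, map_pow, map_add]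
    rw [← hx2, ← hy2, hevδ]
    have h2 : y ^ 2 = x ^ 3 + d := heq
    linear_combination (μ ^ 6 * D.ev e ^ 2 * D.ev b ^ 3) * h2
  obtain ⟨A, B, E, hE0, hBE, hA, hB⟩ := coprime_form hb0 he0 hab hce h1
  have hevE : D.ev E ≠ 0 := ev_ne D E hE0
  have hX : D.ev A = μ ^ 2 * x * D.ev E ^ 2 := by
    have h2 : D.ev a * D.ev E ^ 2 = D.ev A * D.ev b := by
      rw [← map_pow, ← map_mul, hA, map_mul]
    rw [← hx2] at h2
    have h3 : D.ev b * (D.ev A - μ ^ 2 * x * D.ev E ^ 2) = 0 := by
      linear_combination -h2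
    exact sub_eq_zero.1 ((mul_eq_zero.1 h3).resolve_left hevb)
  have hY : D.ev B = μ ^ 3 * y * D.ev E ^ 3 := by
    have h2 : D.ev c * D.ev E ^ 3 = D.ev B * D.ev e := by
      rw [← map_pow, ← map_mul, hB, map_mul]
    rw [← hy2] at h2
    have h3 : D.ev e * (D.ev B - μ ^ 3 * y * D.ev E ^ 3) = 0 := by
      linear_combination -h2
    exact sub_eq_zero.1 ((mul_eq_zero.1 h3).resolve_left heve)
  have hmain : B ^ 2 = A ^ 3 + δ * E ^ 6 := by
    apply ev_inj D
    simp only [map_mul, map_pow, map_add]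
    rw [hX, hY, hevδ]
    linear_combination (μ ^ 6 * D.ev E ^ 6) * heq
  obtain ⟨i0, hi0⟩ := hJ
  have hx0 : x ≠ 0 := by
    rintro rfl
    have := hsx i0 hi0
    rw [map_zero] at this
    exact (Real.exp_pos 2).ne this
  have hA0 : A ≠ 0 := by
    rintro rfl
    rw [map_zero] at hX
    exact mul_ne_zero (mul_ne_zero (pow_ne_zero 2 hμ0) hx0) (pow_ne_zero 2 hevE) hX.symm
  have hμp : ∀ i, 0 < D.nu i μ := fun i => (D.nu i).pos hμ0
  have hEp : ∀ i, 0 < D.nu i (D.ev E) := fun i => (D.nu i).pos hevE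
  -- the integral logarithmic derivative
  have key : ∀ k, 2 * A * lder k B - 3 * B * lder k A = 0 := by
    intro k
    have e1 : B * (2 * A * lder k B - 3 * B * lder k A) =
        E ^ 5 * (A * E * lder k δ - 3 * δ * E * lder k A + 6 * A * δ * lder k E) := by
      have h2 : lder k (B ^ 2) = lder k (A ^ 3 + δ * E ^ 6) := by rw [hmain]
      have h3 : ∀ f : MvPolynomial (Fin r) F, lder k (f ^ 2) = 2 * f * lder k f := fun f => by
        rw [pow_two, lder_mul]
        ring
      have h4 : ∀ f : MvPolynomial (Fin r) F, lder k (f ^ 3) = 3 * f ^ 2 * lder k f := fun f => by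
        rw [pow_succ, lder_mul, h3]
        ring
      have h5 : lder k (E ^ 6) = 6 * E ^ 5 * lder k E := by
        have : E ^ 6 = (E ^ 3) ^ 2 := by ring
        rw [this, h3, h4]
        ring
      rw [lder_add, lder_mul, h3, h4, h5] at h2
      linear_combination A * h2 - 3 * lder k A * hmain
    have hdvd : E ^ 5 ∣ 2 * A * lder k B - 3 * B * lder k A := by
      refine IsRelPrime.dvd_of_dvd_mul_left ?_ (Dvd.intro _ e1.symm)
      exact (hBE.symm.pow_left (m := 5))
    obtain ⟨z, hz⟩ := hdvd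
    have e2 : B * z = A * E * lder k δ - 3 * δ * E * lder k A + 6 * A * δ * lder k E := by
      rw [hz] at e1
      have h3 : E ^ 5 * (B * z) =
          E ^ 5 * (A * E * lder k δ - 3 * δ * E * lder k A + 6 * A * δ * lder k E) := by
        linear_combination e1
      exact mul_left_cancel₀ (pow_ne_zero 5 hE0) h3
    by_contra hne
    have hz0 : z ≠ 0 := by
      rintro rfl
      exact hne (by rw [hz, mul_zero])
    set Z : Ω := mon D.w (-(5 • M)) * D.ev z with hZ
    have hZR : Z ∈ D.R := Subalgebra.mul_mem _ (mon_mem D _) (ev_mem D z)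
    have hZ0 : Z ≠ 0 := mul_ne_zero (mon_ne D.w0 _) (ev_ne D z hz0)
    have hnZ : ∀ i, D.nu i Z * D.nu i μ ^ 5 = D.nu i (D.ev z) := by
      intro i
      rw [hZ, mon_neg, mon_nsmul, ← hμ, map_mul, map_inv₀, map_pow]
      have := (hμp i).ne'
      field_simp
    have hb1 : ∀ i, D.nu i Z ≤ D.nu i x * D.nu i y := by
      intro i
      have h3 : D.nu i (D.ev (E ^ 5 * z)) ≤ D.nu i (D.ev A) * D.nu i (D.ev B) := by
        rw [← hz]
        have e3 : D.ev (2 * A * lder k B - 3 * B * lder k A) =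
            ((2 : ℕ) : Ω) * (D.ev A * D.ev (lder k B)) +
              ((3 : ℕ) : Ω) * (-(D.ev B * D.ev (lder k A))) := by
          simp only [map_sub, map_mul, map_ofNat]
          push_cast
          ring
        rw [e3]
        refine (D.ult i _ _).trans (max_le ?_ ?_)
        · refine (nu_nat_mul D i 2 _).trans ?_
          rw [map_mul]
          exact mul_le_mul_of_nonneg_left (nu_lder D i k B) ((D.nu i).nonneg _)
        · refine (nu_nat_mul D i 3 _).trans ?_
          rw [AbsoluteValue.map_neg, map_mul, mul_comm (D.nu i (D.ev A))]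
          exact mul_le_mul_of_nonneg_left (nu_lder D i k A) ((D.nu i).nonneg _)
      rw [map_mul, map_pow, map_mul, map_pow, hX, hY, ← hnZ i] at h3
      simp only [map_mul, map_pow] at h3
      have h4 : (D.nu i (D.ev E) ^ 5 * D.nu i μ ^ 5) * D.nu i Z ≤
          (D.nu i (D.ev E) ^ 5 * D.nu i μ ^ 5) * (D.nu i x * D.nu i y) := by
        refine le_trans (le_of_eq (by ring)) (h3.trans (le_of_eq (by ring)))
      exact le_of_mul_le_mul_left h4 (mul_pos (pow_pos (hEp i) 5) (pow_pos (hμp i) 5))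
    have hb2 : ∀ i, D.nu i y * D.nu i Z ≤ D.nu i x * D.nu i d := by
      intro i
      have h3 : D.nu i (D.ev (B * z)) ≤
          D.nu i (D.ev A) * D.nu i (D.ev E) * D.nu i (D.ev δ) := by
        rw [e2]
        have e3 : D.ev (A * E * lder k δ - 3 * δ * E * lder k A + 6 * A * δ * lder k E) =
            (D.ev A * D.ev E * D.ev (lder k δ) +
              ((3 : ℕ) : Ω) * (-(D.ev δ * D.ev E * D.ev (lder k A)))) +
              ((6 : ℕ) : Ω) * (D.ev A * D.ev δ * D.ev (lder k E)) := by
          simp only [map_sub, map_mul, map_add, map_ofNat]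
          push_cast
          ring
        rw [e3]
        have hnn : ∀ w : Ω, 0 ≤ D.nu i w := fun w => (D.nu i).nonneg w
        refine (D.ult i _ _).trans (max_le ((D.ult i _ _).trans (max_le ?_ ?_)) ?_)
        · rw [map_mul, map_mul]
          exact mul_le_mul_of_nonneg_left (nu_lder D i k δ) (mul_nonneg (hnn _) (hnn _))
        · refine (nu_nat_mul D i 3 _).trans ?_
          rw [AbsoluteValue.map_neg, map_mul, map_mul]
          calc D.nu i (D.ev δ) * D.nu i (D.ev E) * D.nu i (D.ev (lder k A)) ≤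
              D.nu i (D.ev δ) * D.nu i (D.ev E) * D.nu i (D.ev A) :=
                mul_le_mul_of_nonneg_left (nu_lder D i k A) (mul_nonneg (hnn _) (hnn _))
            _ = _ := by ring
        · refine (nu_nat_mul D i 6 _).trans ?_
          rw [map_mul, map_mul]
          calc D.nu i (D.ev A) * D.nu i (D.ev δ) * D.nu i (D.ev (lder k E)) ≤
              D.nu i (D.ev A) * D.nu i (D.ev δ) * D.nu i (D.ev E) :=
                mul_le_mul_of_nonneg_left (nu_lder D i k E) (mul_nonneg (hnn _) (hnn _))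
            _ = _ := by ring
      rw [map_mul, map_mul, hX, hY, hevδ, ← hnZ i] at h3
      simp only [map_mul, map_pow] at h3
      have h4 : (D.nu i (D.ev E) ^ 3 * D.nu i μ ^ 8) * (D.nu i y * D.nu i Z) ≤
          (D.nu i (D.ev E) ^ 3 * D.nu i μ ^ 8) * (D.nu i x * D.nu i d) := by
        refine le_trans (le_of_eq (by ring)) (h3.trans (le_of_eq (by ring)))
      exact le_of_mul_le_mul_left h4 (mul_pos (pow_pos (hEp i) 3) (pow_pos (hμp i) 8))
    have hJlt : ∀ i ∈ J, D.nu i Z < 1 := by
      intro i hi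
      have h3 := hb2 i
      rw [hsx i hi, hsy i hi] at h3
      have h4 : Real.exp 3 * D.nu i Z < Real.exp 3 * 1 := by
        calc Real.exp 3 * D.nu i Z ≤ Real.exp 2 * D.nu i d := h3
          _ ≤ Real.exp 2 * Real.exp α :=
              mul_le_mul_of_nonneg_left (hsd i hi) (Real.exp_pos _).le
          _ < Real.exp 2 * Real.exp 1 :=
              mul_lt_mul_of_pos_left (Real.exp_lt_exp.2 hα) (Real.exp_pos _)
          _ = Real.exp 3 * 1 := by
              rw [← Real.exp_add, mul_one]
              norm_num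
      exact lt_of_mul_lt_mul_left h4 (Real.exp_pos 3).le
    have hle : ∀ i, D.nu i Z ≤ 1 := by
      intro i
      by_cases hi : i ∈ J
      · exact (hJlt i hi).le
      · have hdi := hfd i hi
        have hx' := (D.nu i).nonneg x
        have hy' := (D.nu i).nonneg y
        have hd' := (D.nu i).nonneg d
        by_cases hx1 : D.nu i x ≤ 1
        · have hy3 : D.nu i y ≤ 1 := by
            have h3 : D.nu i y ^ 2 ≤ 1 := by
              rw [← map_pow, heq]
              refine (D.ult i _ _).trans (max_le ?_ hdi)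
              rw [map_pow]
              exact pow_le_one₀ hx' hx1
            nlinarith
          calc D.nu i Z ≤ D.nu i x * D.nu i y := hb1 i
            _ ≤ 1 * 1 := mul_le_mul hx1 hy3 hy' zero_le_one
            _ = 1 := one_mul 1
        · push Not at hx1
          -- `|y| ^ 2 = |x| ^ 3`
          have h3 : D.nu i x ^ 3 ≤ D.nu i y ^ 2 := by
            have h4 : D.nu i (x ^ 3) ≤ max (D.nu i (y ^ 2)) (D.nu i d) := by
              have e3 : x ^ 3 = y ^ 2 + -d := by rw [heq]; ring
              rw [e3]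
              refine (D.ult i _ _).trans (le_of_eq ?_)
              rw [AbsoluteValue.map_neg]
            rw [map_pow, map_pow] at h4
            rcases le_max_iff.1 h4 with h5 | h5
            · exact h5
            · exfalso
              have h6 : 1 < D.nu i x ^ 3 := one_lt_pow₀ hx1 (by norm_num)
              linarith
          have h5 : D.nu i x ≤ D.nu i y := by
            have h6 : D.nu i x ^ 2 ≤ D.nu i x ^ 3 := by
              rw [pow_succ (D.nu i x) 2]
              exact le_mul_of_one_le_right (by positivity) hx1.le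
            exact le_of_sq_le_sq (h6.trans h3) hy'
          have hyp : 0 < D.nu i y := by linarith
          have h7 : D.nu i y * D.nu i Z ≤ D.nu i y * 1 := by
            calc D.nu i y * D.nu i Z ≤ D.nu i x * D.nu i d := hb2 i
              _ ≤ D.nu i y * 1 := mul_le_mul h5 hdi hd' hy'
          exact le_of_mul_le_mul_left h7 hyp
    have hprod := prod_ge D Z (R_le_O D Z hZR) hZ0
    have hlt : ∏ i, D.nu i Z < ∏ _i : I, (1 : ℝ) :=
      Finset.prod_lt_prod (fun i _ => (D.nu i).pos hZ0) (fun i _ => hle i)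
        ⟨i0, Finset.mem_univ _, hJlt i0 hi0⟩
    rw [Finset.prod_const_one] at hlt
    linarith
  -- the logarithmic derivatives of `B ^ 2` and `A ^ 3` agree
  obtain ⟨c0, hc0⟩ := kernel (f := B ^ 2) (g := A ^ 3) (pow_ne_zero 3 hA0) (by
    intro k
    have h3 : lder k (B ^ 2) = 2 * B * lder k B := by
      rw [pow_two, lder_mul]
      ring
    have h4 : lder k (A ^ 3) = 3 * A ^ 2 * lder k A := by
      have e3 : A ^ 3 = A * (A * A) := by ring
      rw [e3, lder_mul, lder_mul]
      ring
    rw [h3, h4]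
    linear_combination (A ^ 2 * B) * key k)
  have h2 : D.ev δ * D.ev E ^ 6 = algebraMap F Ω (c0 - 1) * D.ev A ^ 3 := by
    have h3 : δ * E ^ 6 = C (c0 - 1) * A ^ 3 := by
      rw [map_sub, map_one]
      linear_combination -hmain + hc0
    have h4 : D.ev (δ * E ^ 6) = D.ev (C (c0 - 1) * A ^ 3) := by rw [h3]
    have h5 : D.ev (C (c0 - 1)) = algebraMap F Ω (c0 - 1) := by
      simp [SSF.ev]
    rw [← h5, ← map_pow, ← map_mul, h4, map_mul, map_pow]
  by_cases hc1 : c0 - 1 = 0
  · rw [hc1, map_zero, zero_mul, hevδ] at h2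
    exact mul_ne_zero (mul_ne_zero (pow_ne_zero 6 hμ0) hd0) (pow_ne_zero 6 hevE) h2
  · have h3 := congrArg (D.nu i0) h2
    rw [nu_term D i0 _ hc1, hevδ, hX] at h3
    simp only [map_mul, map_pow] at h3
    have h4 : (D.nu i0 μ ^ 6 * D.nu i0 (D.ev E) ^ 6) * D.nu i0 d =
        (D.nu i0 μ ^ 6 * D.nu i0 (D.ev E) ^ 6) * D.nu i0 x ^ 3 := by
      refine Eq.trans (by ring) (h3.trans (by ring))
    have h5 := mul_left_cancel₀
      (mul_pos (pow_pos (hμp i0) 6) (pow_pos (hEp i0) 6)).ne' h4
    rw [hsx i0 hi0, ← Real.exp_nat_mul] at h5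
    have h6 := hsd i0 hi0
    rw [h5, Real.exp_le_exp] at h6
    norm_num at h6
    linarith

end Pool.Agent.Helper77.JN
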