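import Pool.Agent.Helper77.JN.Subv
import Pool.Agent.Helper47.SUBW.SLL
import Pool.Agent.Helper47.SUBW.SUBYW

/-!
The Subspace theorem with slowly moving coefficients along an ultrafilter (Ru, Vojta).
-/

set_option autoImplicit false

namespace Pool.Agent.Helper77.JN

open Filter Finset Matrix Pool.Agent.Helper70.SUB Pool.Agent.Helper77.SUBK Pool.Agent.Helper70.SUBL
  Pool.Agent.Helper70.SUBW Pool.Agent.Helper47.SUBW

/-- a polynomially bounded sequence of dimensions grows slowly somewhere -/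
theorem exists_growth (d : ℕ → ℕ) (q : ℕ) (hpos : ∀ T, 0 < d T) (hd : ∀ T, d T ≤ (T + 1) ^ q)
    (δ : ℝ) (hδ : 0 < δ) : ∃ T, (d (T + 1) : ℝ) ≤ (1 + δ) * d T := by
  by_contra hno
  push Not at hno
  have h1 : ∀ T, (1 + δ) ^ T ≤ (d T : ℝ) := by
    intro T
    induction T with
    | zero =>
      rw [pow_zero]
      exact_mod_cast hpos 0
    | succ T ih =>
      calc (1 + δ) ^ (T + 1) = (1 + δ) * (1 + δ) ^ T := by ring
        _ ≤ (1 + δ) * d T := mul_le_mul_of_nonneg_left ih (by linarith)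
        _ ≤ d (T + 1) := (hno T).le
  have h2 := tendsto_pow_const_div_const_pow_of_one_lt q (show (1 : ℝ) < 1 + δ by linarith)
  have h3 : ∀ᶠ n : ℕ in atTop, (n : ℝ) ^ q / (1 + δ) ^ n < 1 / (1 + δ) :=
    h2.eventually_lt_const (by positivity)
  obtain ⟨n, hn, hn1⟩ := (h3.and (eventually_ge_atTop 1)).exists
  obtain ⟨T, rfl⟩ : ∃ T, n = T + 1 := ⟨n - 1, by omega⟩
  have h4 : (0 : ℝ) < (1 + δ) ^ (T + 1) := by positivity
  rw [div_lt_iff₀ h4] at hn
  have h5 : 1 / (1 + δ) * (1 + δ) ^ (T + 1) = (1 + δ) ^ T := by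
    have : (1 + δ) ≠ 0 := by linarith
    rw [pow_succ]
    field_simp
  rw [h5] at hn
  have h6 : ((d T : ℕ) : ℝ) ≤ ((T + 1 : ℕ) : ℝ) ^ q := by
    have := hd T
    exact_mod_cast this
  linarith [h1 T]

/-- extension of a linearly independent family by members of a given one -/
theorem extend_family {k V : Type} [Field k] [AddCommGroup V] [Module k V] {I J : Type}
    [Fintype I] [Fintype J] (u : I → V) (hu : LinearIndependent k u) (g : J → V)
    (hg : LinearIndependent k g) (hgu : ∀ j, g j ∈ Submodule.span k (Set.range u)) :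
    ∃ (G : I → V) (e : J ↪ I), LinearIndependent k G ∧
      (∀ i, G i ∈ Submodule.span k (Set.range u)) ∧ (∀ j, G (e j) = g j) ∧
      ∀ i, i ∉ Set.range e → ∃ i', G i = u i' := by
  classical
  set s : Set V := Set.range g with hs
  set t : Set V := Set.range g ∪ Set.range u with ht
  have hsi : LinearIndepOn k id s := hg.linearIndepOn_id
  have hst : s ⊆ t := Set.subset_union_left
  set b : Set V := hsi.extend hst with hb
  have hbi : LinearIndepOn k id b := hsi.linearIndepOn_extend hst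
  have hbs : s ⊆ b := hsi.subset_extend hst
  have hbt : b ⊆ t := hsi.extend_subset hst
  have hspan : Submodule.span k b = Submodule.span k (Set.range u) := by
    rw [hb, hsi.span_extend_eq_span hst]
    apply le_antisymm
    · rw [Submodule.span_le]
      rintro x (⟨j, rfl⟩ | ⟨i, rfl⟩)
      · exact hgu j
      · exact Submodule.subset_span ⟨i, rfl⟩
    · exact Submodule.span_mono Set.subset_union_right
  have hbfin : b.Finite := (Set.finite_range g |>.union (Set.finite_range u)).subset hbt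
  have : Fintype b := hbfin.fintype
  have hcard : Fintype.card I = Fintype.card b := by
    have h1 : Module.finrank k (Submodule.span k (Set.range u)) = Fintype.card I :=
      finrank_span_eq_card hu
    have h2 : Module.finrank k (Submodule.span k b) = Fintype.card b := by
      have h3 : LinearIndependent k (fun x : b => (x : V)) := hbi
      have h4 := finrank_span_eq_card h3
      rwa [Subtype.range_coe] at h4
    rw [← h1, ← h2, hspan]
  obtain ⟨E⟩ : Nonempty (I ≃ b) := ⟨Fintype.equivOfCardEq hcard⟩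
  refine ⟨fun i => (E i : V), ⟨fun j => E.symm ⟨g j, hbs ⟨j, rfl⟩⟩, ?_⟩, ?_, ?_, ?_, ?_⟩
  · intro j j' hjj
    have h1 := E.symm.injective hjj
    have h2 : g j = g j' := congrArg Subtype.val h1
    exact hg.injective h2
  · have h3 : LinearIndependent k (fun x : b => (x : V)) := hbi
    exact h3.comp _ E.injective
  · intro i
    rw [← hspan]
    exact Submodule.subset_span (E i).2
  · intro j
    simp
  · intro i hi
    rcases hbt (E i).2 with ⟨j, hj⟩ | ⟨i', hi'⟩
    · exfalso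
      apply hi
      refine ⟨j, ?_⟩
      show E.symm ⟨g j, _⟩ = i
      rw [Equiv.symm_apply_eq]
      exact Subtype.ext hj
    · exact ⟨i', hi'.symm⟩

/-- (SLSUB) the Subspace theorem with slow coefficients: the `g v σ i` are combinations with slow
coefficients of the `u k`, linearly independent over the slow elements -/
def ST_SLSUB : Prop := ∀ (M : Type) [Field M] [NumberField M] [IsGalois ℚ M] (S : Finset ℕ)
  (P : PF S M) (φ : Ultrafilter ℕ) (X : ℕ → ℝ) (κ : Type) [Fintype κ] [DecidableEq κ]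
  (u : κ → ℕ → M) (g : Option ℕ → (M ≃ₐ[ℚ] M) → κ → ℕ → M)
  (a : Option ℕ → (M ≃ₐ[ℚ] M) → κ → ℝ) (B : ℝ), (∀ p ∈ S, p.Prime) →
  Tendsto X (φ : Filter ℕ) atTop →
  (∀ ε' : ℝ, 0 < ε' → ∀ᶠ j in (φ : Filter ℕ), ∃ D : ℕ, D ≠ 0 ∧ (D : ℝ) ≤ X j ^ ε' ∧
    ∀ i, SI S ((D : M) * u i j)) →
  (∀ᶠ j in (φ : Filter ℕ), ∀ v ∈ plc S, ∀ (σ : M ≃ₐ[ℚ] M) (i : κ),
    P.nv v (σ (u i j)) ≤ X j ^ B) →
  (∀ v ∈ plc S, ∀ (σ : M ≃ₐ[ℚ] M) (i : κ), ∃ c : κ → UP M φ, (∀ k, SlG P φ X (c k)) ∧
    gm φ (g v σ i) = ∑ k, c k * gm φ (u k)) →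
  (∀ v ∈ plc S, ∀ (σ : M ≃ₐ[ℚ] M) (c : κ → UP M φ), (∀ k, SlG P φ X (c k)) →
    ∑ i, c i * gm φ (g v σ i) = 0 → c = 0) →
  (∀ v ∈ plc S, ∀ (σ : M ≃ₐ[ℚ] M) (i : κ) (ε : ℝ), 0 < ε →
    ∀ᶠ j in (φ : Filter ℕ), P.nv v (σ (g v σ i j)) ≤ X j ^ (a v σ i + ε)) →
  ∑ v ∈ plc S, ∑ σ : M ≃ₐ[ℚ] M, ∑ i, a v σ i < 0 →
  ∃ c : κ → UP M φ, c ≠ 0 ∧ (∀ k, SlG P φ X (c k)) ∧ ∑ k, c k * gm φ (u k) = 0

/-- sums of slow elements -/
theorem slG_sum (h : ST_SLW) {M : Type} [Field M] [NumberField M] [IsGalois ℚ M] {S : Finset ℕ}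
    {P : PF S M} {φ : Ultrafilter ℕ} {X : ℕ → ℝ} (hS : ∀ p ∈ S, p.Prime)
    (hX : Tendsto X (φ : Filter ℕ) atTop) {ι : Type} (s : Finset ι) (f : ι → UP M φ)
    (hf : ∀ i ∈ s, SlG P φ X (f i)) : SlG P φ X (∑ i ∈ s, f i) := by
  classical
  induction s using Finset.induction_on with
  | empty => rw [Finset.sum_empty]; exact slG_zero h hS hX
  | insert a s ha ih =>
    rw [Finset.sum_insert ha]
    exact slG_add h hS hX (hf a (Finset.mem_insert_self a s))
      (ih fun i hi => hf i (Finset.mem_insert_of_mem hi))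

/-- products of slow elements -/
theorem slG_prod (h : ST_SLW) {M : Type} [Field M] [NumberField M] [IsGalois ℚ M] {S : Finset ℕ}
    {P : PF S M} {φ : Ultrafilter ℕ} {X : ℕ → ℝ} (hS : ∀ p ∈ S, p.Prime)
    (hX : Tendsto X (φ : Filter ℕ) atTop) {ι : Type} (s : Finset ι) (f : ι → UP M φ)
    (hf : ∀ i ∈ s, SlG P φ X (f i)) : SlG P φ X (∏ i ∈ s, f i) := by
  classical
  induction s using Finset.induction_on with
  | empty => rw [Finset.prod_empty]; exact slG_one h hS hX
  | insert a s ha ih =>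
    rw [Finset.prod_insert ha]
    exact slG_mul h hS hX (hf a (Finset.mem_insert_self a s))
      (ih fun i hi => hf i (Finset.mem_insert_of_mem hi))

theorem slG_pow (h : ST_SLW) {M : Type} [Field M] [NumberField M] [IsGalois ℚ M] {S : Finset ℕ}
    {P : PF S M} {φ : Ultrafilter ℕ} {X : ℕ → ℝ} (hS : ∀ p ∈ S, p.Prime)
    (hX : Tendsto X (φ : Filter ℕ) atTop) {g : UP M φ} (hg : SlG P φ X g) (n : ℕ) :
    SlG P φ X (g ^ n) := by
  induction n with
  | zero => rw [pow_zero]; exact slG_one h hS hX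
  | succ n ih => rw [pow_succ]; exact slG_mul h hS hX ih hg

theorem smul_gm {M : Type} [Field M] (φ : Ultrafilter ℕ) (a : M) (g : UP M φ) :
    a • g = gm φ (fun _ => a) * g := by
  obtain ⟨z, rfl⟩ := gm_surj φ g
  rfl

/-- the `M`-space spanned by the monomials with exponents at most `T` -/
noncomputable def mSp {M : Type} [Field M] {φ : Ultrafilter ℕ} {β : Type} [Fintype β]
    (b : β → UP M φ) (T : ℕ) : Submodule M (UP M φ) :=
  Submodule.span M (Set.range fun α : β → Fin (T + 1) => ∏ i, b i ^ (α i : ℕ))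

theorem mSp_slow (h : ST_SLW) {M : Type} [Field M] [NumberField M] [IsGalois ℚ M] {S : Finset ℕ}
    {P : PF S M} {φ : Ultrafilter ℕ} {X : ℕ → ℝ} (hS : ∀ p ∈ S, p.Prime)
    (hX : Tendsto X (φ : Filter ℕ) atTop) {β : Type} [Fintype β] (b : β → UP M φ)
    (hb : ∀ i, SlG P φ X (b i)) (T : ℕ) (g : UP M φ) (hg : g ∈ mSp b T) : SlG P φ X g := by
  unfold mSp at hg
  induction hg using Submodule.span_induction with
  | mem x hx =>
    obtain ⟨α, rfl⟩ := hx
    exact slG_prod h hS hX _ _ fun i _ => slG_pow h hS hX (hb i) _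
  | zero => exact slG_zero h hS hX
  | add x y _ _ hx hy => exact slG_add h hS hX hx hy
  | smul a x _ hx =>
    rw [smul_gm]
    exact slG_mul h hS hX (slG_const h hS hX a) hx

theorem mSp_mul {M : Type} [Field M] {φ : Ultrafilter ℕ} {β : Type} [Fintype β] [DecidableEq β]
    (b : β → UP M φ) (T : ℕ) (i : β) (g : UP M φ) (hg : g ∈ mSp b T) :
    b i * g ∈ mSp b (T + 1) := by
  unfold mSp at hg
  induction hg using Submodule.span_induction with
  | mem x hx =>
    obtain ⟨α, rfl⟩ := hx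
    apply Submodule.subset_span
    refine ⟨fun i' => ⟨α i' + if i' = i then 1 else 0, ?_⟩, ?_⟩
    · have := (α i').2
      split_ifs <;> omega
    · simp only [pow_add, Finset.prod_mul_distrib]
      rw [mul_comm (b i)]
      congr 1
      rw [Finset.prod_eq_single i]
      · simp
      · intro i' _ hne
        simp [hne]
      · simp
  | zero => rw [mul_zero]; exact Submodule.zero_mem _
  | add x y _ _ hx hy => rw [mul_add]; exact Submodule.add_mem _ hx hy
  | smul a x _ hx =>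
    have : b i * a • x = a • (b i * x) := by
      rw [smul_gm, smul_gm]
      ring
    rw [this]
    exact Submodule.smul_mem _ _ hx

theorem mSp_one {M : Type} [Field M] {φ : Ultrafilter ℕ} {β : Type} [Fintype β]
    (b : β → UP M φ) (T : ℕ) : (1 : UP M φ) ∈ mSp b T := by
  apply Submodule.subset_span
  exact ⟨fun _ => 0, by simp⟩

theorem mSp_fin {M : Type} [Field M] {φ : Ultrafilter ℕ} {β : Type} [Fintype β]
    (b : β → UP M φ) (T : ℕ) : Module.Finite M (mSp b T) := by
  unfold mSp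
  exact Module.Finite.iff_fg.2 (Submodule.fg_span (Set.finite_range _))

theorem mSp_rank {M : Type} [Field M] {φ : Ultrafilter ℕ} {β : Type} [Fintype β]
    (b : β → UP M φ) (T : ℕ) : Module.finrank M (mSp b T) ≤ (T + 1) ^ Fintype.card β := by
  classical
  unfold mSp
  refine (finrank_range_le_card _).trans ?_
  simp

theorem mSp_pos {M : Type} [Field M] {φ : Ultrafilter ℕ} {β : Type} [Fintype β]
    (b : β → UP M φ) (T : ℕ) : 0 < Module.finrank M (mSp b T) := by
  have := mSp_fin b T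
  have : Nontrivial (mSp b T) := ⟨⟨1, mSp_one b T⟩, 0, fun h => one_ne_zero (congrArg Subtype.val h)⟩
  exact Module.finrank_pos

theorem SLSUB (hSUB : ST_SUBTU) (hSLW : ST_SLW) (hSVB : ST_SVB) : ST_SLSUB := by
  classical
  intro M _ _ _ S P φ X κ _ _ u g a B hS hX hD hB hg hgi hsz hneg
  by_contra hno
  have hui : ∀ c : κ → UP M φ, (∀ k, SlG P φ X (c k)) → ∑ k, c k * gm φ (u k) = 0 → c = 0 := by
    intro c hc h0
    by_contra hc0
    exact hno ⟨c, hc0, hc, h0⟩
  obtain ⟨s1, s2, s3, s4, s5, -, -, -, -, -, -, s12, -⟩ := hSLW M S P φ X hS hX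
  obtain ⟨v1, v2, -⟩ := hSVB M
  -- the exponents are nonempty
  have hκ : Nonempty κ := by
    by_contra hE
    rw [not_nonempty_iff] at hE
    have : ∑ v ∈ plc S, ∑ σ : M ≃ₐ[ℚ] M, ∑ i, a v σ i = 0 :=
      Finset.sum_eq_zero fun v _ => Finset.sum_eq_zero fun σ _ => by simp
    linarith
  -- the coefficients
  have hg' : ∀ (v : Option ℕ) (σ : M ≃ₐ[ℚ] M) (i : κ), ∃ c : κ → UP M φ,
      (∀ k, SlG P φ X (c k)) ∧ (v ∈ plc S → gm φ (g v σ i) = ∑ k, c k * gm φ (u k)) := by
    intro v σ i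
    by_cases hv : v ∈ plc S
    · obtain ⟨c, hc1, hc2⟩ := hg v hv σ i
      exact ⟨c, hc1, fun _ => hc2⟩
    · exact ⟨0, fun _ => slG_zero hSLW hS hX, fun h => absurd h hv⟩
  choose c hc1 hc2 using hg'
  let β : Type := {v : Option ℕ // v ∈ plc S} × (M ≃ₐ[ℚ] M) × κ × κ
  set b : β → UP M φ := fun q => c q.1.1 q.2.1 q.2.2.1 q.2.2.2 with hb
  have hbs : ∀ q, SlG P φ X (b q) := fun q => hc1 _ _ _ _
  set s : ℝ := ∑ v ∈ plc S, ∑ σ : M ≃ₐ[ℚ] M, ∑ i, a v σ i with hs
  set B1 : ℝ := max B 0 with hB1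
  have hB10 : 0 ≤ B1 := le_max_right _ _
  set N : ℝ := ((plc S).card : ℝ) * Fintype.card (M ≃ₐ[ℚ] M) * Fintype.card κ with hN
  have hN0 : 0 ≤ N := by positivity
  set δ : ℝ := -s / (2 * (N * B1 + 1)) with hδ
  have hNB : 0 ≤ N * B1 := mul_nonneg hN0 hB10
  have hδ0 : 0 < δ := by
    apply div_pos <;> linarith
  have hδN : N * B1 * δ ≤ -s / 2 := by
    rw [hδ, ← sub_nonneg]
    have h1 : (0 : ℝ) < N * B1 + 1 := by linarith
    have h2 : -s / 2 - N * B1 * (-s / (2 * (N * B1 + 1))) = -s / (2 * (N * B1 + 1)) := by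
      field_simp
      ring
    rw [h2]
    exact hδ0.le
  obtain ⟨T, hT⟩ := exists_growth (fun T => Module.finrank M (mSp b T)) (Fintype.card β)
    (mSp_pos b) (mSp_rank b) δ hδ0
  -- bases
  have hf0 := mSp_fin b T
  have hf1 := mSp_fin b (T + 1)
  set d0 : ℕ := Module.finrank M (mSp b T) with hd0
  set d1 : ℕ := Module.finrank M (mSp b (T + 1)) with hd1
  set w0 : Fin d0 → UP M φ := fun i => (Module.finBasis M (mSp b T) i : UP M φ) with hw0
  set w1 : Fin d1 → UP M φ := fun i => (Module.finBasis M (mSp b (T + 1)) i : UP M φ) with hw1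
  have hw0s : ∀ i, SlG P φ X (w0 i) := fun i =>
    mSp_slow hSLW hS hX b hbs T _ (Module.finBasis M (mSp b T) i).2
  have hw1s : ∀ i, SlG P φ X (w1 i) := fun i =>
    mSp_slow hSLW hS hX b hbs (T + 1) _ (Module.finBasis M (mSp b (T + 1)) i).2
  have hw0i : LinearIndependent M w0 :=
    (Module.finBasis M (mSp b T)).linearIndependent.map' (mSp b T).subtype
      (Submodule.ker_subtype _)
  have hw1i : LinearIndependent M w1 :=
    (Module.finBasis M (mSp b (T + 1))).linearIndependent.map' (mSp b (T + 1)).subtype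
      (Submodule.ker_subtype _)
  have hw1sp : ∀ x ∈ mSp b (T + 1), ∃ l : Fin d1 → M, x = ∑ i, l i • w1 i := by
    intro x hx
    have h1 := (Module.finBasis M (mSp b (T + 1))).sum_repr ⟨x, hx⟩
    have h2 : ((∑ i, (Module.finBasis M (mSp b (T + 1))).repr ⟨x, hx⟩ i •
        Module.finBasis M (mSp b (T + 1)) i : mSp b (T + 1)) : UP M φ) = x :=
      congrArg Subtype.val h1
    refine ⟨fun i => (Module.finBasis M (mSp b (T + 1))).repr ⟨x, hx⟩ i, h2.symm.trans ?_⟩
    exact map_sum (mSp b (T + 1)).subtype (fun i => (Module.finBasis M (mSp b (T + 1))).repr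
      ⟨x, hx⟩ i • Module.finBasis M (mSp b (T + 1)) i) univ
  -- independence of products
  have hind : ∀ (d : ℕ) (w : Fin d → UP M φ) (z : κ → UP M φ), LinearIndependent M w →
      (∀ i, SlG P φ X (w i)) → (∀ c : κ → UP M φ, (∀ k, SlG P φ X (c k)) →
        ∑ k, c k * z k = 0 → c = 0) →
      LinearIndependent M (fun q : Fin d × κ => w q.1 * z q.2) := by
    intro d w z hw hws hz
    rw [Fintype.linearIndependent_iff]
    intro l hl q
    have h1 : ∑ k, (∑ i, l (i, k) • w i) * z k = 0 := by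
      rw [← hl, Fintype.sum_prod_type, Finset.sum_comm]
      refine Finset.sum_congr rfl fun k _ => ?_
      rw [Finset.sum_mul]
      refine Finset.sum_congr rfl fun i _ => ?_
      rw [smul_gm, smul_gm, mul_assoc]
    have h2 := hz (fun k => ∑ i, l (i, k) • w i) (fun k => slG_sum hSLW hS hX _ _ fun i _ => by
      rw [smul_gm]
      exact slG_mul hSLW hS hX (slG_const hSLW hS hX _) (hws i)) h1
    have h3 : ∑ i, l (i, q.2) • w i = 0 := congrFun h2 q.2
    have h4 := (Fintype.linearIndependent_iff.1 hw) (fun i => l (i, q.2)) h3 q.1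
    exact h4
  have hgi' : ∀ v ∈ plc S, ∀ σ : M ≃ₐ[ℚ] M,
      LinearIndependent M (fun q : Fin d0 × κ => w0 q.1 * gm φ (g v σ q.2)) := fun v hv σ =>
    hind d0 w0 (fun k => gm φ (g v σ k)) hw0i hw0s (hgi v hv σ)
  have hui' : LinearIndependent M (fun q : Fin d1 × κ => w1 q.1 * gm φ (u q.2)) :=
    hind d1 w1 (fun k => gm φ (u k)) hw1i hw1s hui
  have hgsp : ∀ v ∈ plc S, ∀ (σ : M ≃ₐ[ℚ] M) (q : Fin d0 × κ), w0 q.1 * gm φ (g v σ q.2) ∈
      Submodule.span M (Set.range fun q : Fin d1 × κ => w1 q.1 * gm φ (u q.2)) := by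
    intro v hv σ q
    rw [hc2 v σ q.2 hv, Finset.mul_sum]
    refine Submodule.sum_mem _ fun k _ => ?_
    have h1 : b (⟨v, hv⟩, σ, q.2, k) * w0 q.1 ∈ mSp b (T + 1) :=
      mSp_mul b T _ _ (Module.finBasis M (mSp b T) q.1).2
    obtain ⟨l, hl⟩ := hw1sp _ h1
    have h2 : w0 q.1 * (c v σ q.2 k * gm φ (u k)) = ∑ i, l i • (w1 i * gm φ (u k)) := by
      have h3 : b (⟨v, hv⟩, σ, q.2, k) = c v σ q.2 k := rfl
      rw [h3] at hl
      calc w0 q.1 * (c v σ q.2 k * gm φ (u k)) = (c v σ q.2 k * w0 q.1) * gm φ (u k) := by ring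
        _ = ∑ i, l i • (w1 i * gm φ (u k)) := by
          rw [hl, Finset.sum_mul]
          refine Finset.sum_congr rfl fun i _ => ?_
          rw [smul_gm, smul_gm, mul_assoc]
    rw [h2]
    exact Submodule.sum_mem _ fun i _ => Submodule.smul_mem _ _ (Submodule.subset_span ⟨(i, k), rfl⟩)
  -- representatives
  choose z1 hz1 using fun i => hw1s i
  choose z0 hz0 using fun i => hw0s i
  have hex : ∀ (v : Option ℕ) (σ : M ≃ₐ[ℚ] M), ∃ (G : Fin d1 × κ → UP M φ)
      (e : Fin d0 × κ ↪ Fin d1 × κ), v ∈ plc S → LinearIndependent M G ∧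
      (∀ i, G i ∈ Submodule.span M (Set.range fun q : Fin d1 × κ => w1 q.1 * gm φ (u q.2))) ∧
      (∀ j, G (e j) = w0 j.1 * gm φ (g v σ j.2)) ∧
      ∀ i, i ∉ Set.range e → ∃ i' : Fin d1 × κ, G i = w1 i'.1 * gm φ (u i'.2) := by
    intro v σ
    have hle : Fintype.card (Fin d0 × κ) ≤ Fintype.card (Fin d1 × κ) := by
      obtain ⟨v', hv'⟩ : ∃ v', v' ∈ plc S := by
        by_contra hE
        push Not at hE
        have : ∑ v ∈ plc S, ∑ σ : M ≃ₐ[ℚ] M, ∑ i, a v σ i = 0 :=
          Finset.sum_eq_zero fun v hv => absurd hv (hE v)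
        linarith
      obtain ⟨G, e, -⟩ := extend_family _ hui' _ (hgi' v' hv' σ) (hgsp v' hv' σ)
      exact Fintype.card_le_of_embedding e
    by_cases hv : v ∈ plc S
    · obtain ⟨G, e, h1, h2, h3, h4⟩ := extend_family _ hui' _ (hgi' v hv σ) (hgsp v hv σ)
      exact ⟨G, e, fun _ => ⟨h1, h2, h3, h4⟩⟩
    · obtain ⟨e⟩ := Function.Embedding.nonempty_of_card_le hle
      exact ⟨0, e, fun h => absurd h hv⟩
  choose G e hGe using hex
  have hrep : ∀ (v : Option ℕ) (σ : M ≃ₐ[ℚ] M) (i : Fin d1 × κ), ∃ (z : ℕ → M) (t : ℝ),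
      (v ∈ plc S → gm φ z = G v σ i ∧ ∀ ε : ℝ, 0 < ε →
        ∀ᶠ j in (φ : Filter ℕ), P.nv v (σ (z j)) ≤ X j ^ (t + ε)) ∧
      (∀ q, e v σ q = i → t = a v σ q.2) ∧ (i ∉ Set.range (e v σ) → t = B1) := by
    intro v σ i
    by_cases hv : v ∈ plc S
    · obtain ⟨h1, h2, h3, h4⟩ := hGe v σ hv
      by_cases hi : i ∈ Set.range (e v σ)
      · obtain ⟨q, rfl⟩ := hi
        refine ⟨fun j => z0 q.1 j * g v σ q.2 j, a v σ q.2, fun _ => ⟨?_, ?_⟩, ?_, ?_⟩
        · rw [h3 q, gm_mul, (hz0 q.1).2]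
        · intro ε hε
          filter_upwards [s5 _ (hz0 q.1).1 v hv σ (ε / 2) (by positivity),
            hsz v hv σ q.2 (ε / 2) (by positivity), hX.eventually_gt_atTop 0] with j e1 e2 e3
          rw [map_mul, P.mul _ hv]
          calc P.nv v (σ (z0 q.1 j)) * P.nv v (σ (g v σ q.2 j))
              ≤ X j ^ (ε / 2) * X j ^ (a v σ q.2 + ε / 2) :=
                mul_le_mul e1 e2 (P.nn _ _) (Real.rpow_nonneg e3.le _)
            _ = X j ^ (a v σ q.2 + ε) := by
                rw [← Real.rpow_add e3]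
                congr 1
                ring
        · intro q' hq'
          have := (e v σ).injective hq'
          rw [this]
        · intro h
          exact absurd ⟨q, rfl⟩ h
      · obtain ⟨i', hi'⟩ := h4 i hi
        refine ⟨fun j => z1 i'.1 j * u i'.2 j, B1, fun _ => ⟨?_, ?_⟩, ?_, fun _ => rfl⟩
        · rw [hi', gm_mul, (hz1 i'.1).2]
        · intro ε hε
          filter_upwards [s5 _ (hz1 i'.1).1 v hv σ ε hε, hB, hX.eventually_ge_atTop 1]
            with j e1 e2 e3
          have e4 : 0 < X j := by linarith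
          rw [map_mul, P.mul _ hv]
          calc P.nv v (σ (z1 i'.1 j)) * P.nv v (σ (u i'.2 j))
              ≤ X j ^ ε * X j ^ B := mul_le_mul e1 (e2 v hv σ i'.2) (P.nn _ _)
                (Real.rpow_nonneg e4.le _)
            _ = X j ^ (B + ε) := by
                rw [← Real.rpow_add e4]
                congr 1
                ring
            _ ≤ X j ^ (B1 + ε) := Real.rpow_le_rpow_of_exponent_le e3
                (add_le_add_left (le_max_left _ _) _)
        · intro q hq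
          exact absurd ⟨q, hq⟩ hi
    · by_cases hi : i ∈ Set.range (e v σ)
      · obtain ⟨q, rfl⟩ := hi
        refine ⟨fun _ => 0, a v σ q.2, fun h => absurd h hv, ?_, ?_⟩
        · intro q' hq'
          have := (e v σ).injective hq'
          rw [this]
        · intro h
          exact absurd ⟨q, rfl⟩ h
      · refine ⟨fun _ => 0, B1, fun h => absurd h hv, ?_, fun _ => rfl⟩
        intro q hq
        exact absurd ⟨q, hq⟩ hi
  choose Z t hZ ht1 ht2 using hrep
  have hsum : ∀ (v : Option ℕ) (σ : M ≃ₐ[ℚ] M), ∑ i, t v σ i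
      = d0 * ∑ i, a v σ i + ((d1 : ℝ) - d0) * Fintype.card κ * B1 := by
    intro v σ
    have h1 : ∑ i, t v σ i = ∑ i ∈ (univ : Finset (Fin d0 × κ)).map (e v σ), t v σ i
        + ∑ i ∈ univ \ ((univ : Finset (Fin d0 × κ)).map (e v σ)), t v σ i := by
      rw [add_comm]
      exact (Finset.sum_sdiff (Finset.subset_univ _)).symm
    have h2 : ∑ i ∈ (univ : Finset (Fin d0 × κ)).map (e v σ), t v σ i = d0 * ∑ i, a v σ i := by
      rw [Finset.sum_map]
      have h3 : ∀ q ∈ (univ : Finset (Fin d0 × κ)), t v σ (e v σ q) = a v σ q.2 :=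
        fun q _ => ht1 v σ _ q rfl
      rw [Finset.sum_congr rfl h3, Fintype.sum_prod_type]
      simp
    have h4 : ∑ i ∈ univ \ ((univ : Finset (Fin d0 × κ)).map (e v σ)), t v σ i
        = ((d1 : ℝ) - d0) * Fintype.card κ * B1 := by
      have h5 : ∀ i ∈ univ \ ((univ : Finset (Fin d0 × κ)).map (e v σ)), t v σ i = B1 := by
        intro i hi
        apply ht2
        rw [Finset.mem_sdiff] at hi
        rintro ⟨q, hq⟩
        exact hi.2 (Finset.mem_map.2 ⟨q, Finset.mem_univ _, hq⟩)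
      rw [Finset.sum_congr rfl h5, Finset.sum_const, nsmul_eq_mul]
      have h6 : ((univ \ ((univ : Finset (Fin d0 × κ)).map (e v σ))).card : ℝ)
          = ((d1 : ℝ) - d0) * Fintype.card κ := by
        have h7 : (univ \ ((univ : Finset (Fin d0 × κ)).map (e v σ))).card
            + ((univ : Finset (Fin d0 × κ)).map (e v σ)).card
            = (univ : Finset (Fin d1 × κ)).card :=
          Finset.card_sdiff_add_card_eq_card (Finset.subset_univ _)
        simp only [Finset.card_map, Finset.card_univ, Fintype.card_prod, Fintype.card_fin] at h7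
        have h8 : ((univ \ ((univ : Finset (Fin d0 × κ)).map (e v σ))).card : ℝ)
            + (d0 : ℝ) * Fintype.card κ = (d1 : ℝ) * Fintype.card κ := by
          exact_mod_cast h7
        linarith
      rw [h6]
    rw [h1, h2, h4]
  -- the final contradiction
  have hne : Nonempty (Fin d1 × κ) := ⟨⟨⟨0, mSp_pos b (T + 1)⟩, hκ.some⟩⟩
  obtain ⟨l, hl0, hl⟩ := subv hSUB P (κ := Fin d1 × κ) φ X hS hX
    (fun q j => z1 q.1 j * u q.2 j) Z t (B + 1)
    (by
      intro ε' hε'
      filter_upwards [s12 (Fin d1) univ z1 (fun i _ => (hz1 i).1) (ε' / 2) (by positivity),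
        hD (ε' / 2) (by positivity), hX.eventually_gt_atTop 0] with j h1 h2 h3
      obtain ⟨D1, hD1, hD1', hD1i⟩ := h1
      obtain ⟨D2, hD2, hD2', hD2i⟩ := h2
      refine ⟨D1 * D2, Nat.mul_ne_zero hD1 hD2, ?_, fun q => ?_⟩
      · push_cast
        calc (D1 : ℝ) * D2 ≤ X j ^ (ε' / 2) * X j ^ (ε' / 2) :=
              mul_le_mul hD1' hD2' (Nat.cast_nonneg _) (Real.rpow_nonneg h3.le _)
          _ = X j ^ ε' := by
              rw [← Real.rpow_add h3]
              congr 1
              ring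
      · have h4 : ((D1 * D2 : ℕ) : M) * (z1 q.1 j * u q.2 j)
            = ((D1 : M) * z1 q.1 j) * ((D2 : M) * u q.2 j) := by
          push_cast
          ring
        rw [h4]
        exact (v2 S _ _ (v1 S _ (hD1i q.1 (Finset.mem_univ _))) (hD2i q.2)).2)
    (by
      have h1 : ∀ᶠ j in (φ : Filter ℕ), ∀ v ∈ plc S, ∀ (σ : M ≃ₐ[ℚ] M) (i : Fin d1),
          P.nv v (σ (z1 i j)) ≤ X j ^ (1 : ℝ) := by
        rw [Filter.eventually_all_finset]
        intro v hv
        exact Filter.eventually_all.2 fun σ => Filter.eventually_all.2 fun i =>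
          s5 _ (hz1 i).1 v hv σ 1 one_pos
      filter_upwards [h1, hB, hX.eventually_gt_atTop 0] with j e1 e2 e3 v hv σ q
      rw [map_mul, P.mul _ hv, add_comm, Real.rpow_add e3]
      exact mul_le_mul (e1 v hv σ q.1) (e2 v hv σ q.2) (P.nn _ _) (Real.rpow_nonneg e3.le _))
    (by
      intro v hv σ i
      obtain ⟨-, h2, -, -⟩ := hGe v σ hv
      have h3 := h2 i
      rw [Submodule.mem_span_range_iff_exists_fun] at h3
      obtain ⟨l, hl⟩ := h3
      refine ⟨l, ?_⟩
      have h4 : gm φ (Z v σ i) = gm φ (fun j => ∑ q : Fin d1 × κ, l q * (z1 q.1 j * u q.2 j)) := by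
        rw [(hZ v σ i hv).1, ← hl, gm_lin φ l (fun q j => z1 q.1 j * u q.2 j)]
        refine Finset.sum_congr rfl fun q _ => ?_
        rw [gm_mul, (hz1 q.1).2]
      exact (gm_eq φ).1 h4)
    (by
      intro v hv σ l hl
      obtain ⟨h1, -, -, -⟩ := hGe v σ hv
      have h3 : ∑ i, l i • G v σ i = 0 := by
        have h4 : gm φ (fun j => ∑ i, l i * Z v σ i j) = gm φ (fun _ => (0 : M)) :=
          (gm_eq φ).2 hl
        rw [gm_lin, gm_zero] at h4
        rw [← h4]
        exact Finset.sum_congr rfl fun i _ => by rw [(hZ v σ i hv).1]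
      funext i
      exact (Fintype.linearIndependent_iff.1 h1) l h3 i)
    (fun v hv σ i ε hε => (hZ v σ i hv).2 ε hε)
    (by
      have h1 : ∑ v ∈ plc S, ∑ σ : M ≃ₐ[ℚ] M, ∑ i, t v σ i
          = d0 * s + ((d1 : ℝ) - d0) * (N * B1) := by
        simp only [hsum, Finset.sum_add_distrib, ← Finset.mul_sum, Finset.sum_const,
          Finset.card_univ, nsmul_eq_mul]
        rw [hs, hN]
        ring
      rw [h1]
      have hT' : (d1 : ℝ) ≤ (1 + δ) * d0 := hT
      have hd0p : (0 : ℝ) < d0 := by exact_mod_cast mSp_pos b T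
      have h2 : ((d1 : ℝ) - d0) * (N * B1) ≤ δ * d0 * (N * B1) :=
        mul_le_mul_of_nonneg_right (by linarith) hNB
      have h3 : δ * d0 * (N * B1) ≤ d0 * (-s / 2) := by
        have := mul_le_mul_of_nonneg_left hδN hd0p.le
        linarith [this]
      nlinarith)
  apply hl0
  have h5 : ∑ q, l q • (w1 q.1 * gm φ (u q.2)) = 0 := by
    have h4 : gm φ (fun j => ∑ q : Fin d1 × κ, l q * (z1 q.1 j * u q.2 j))
        = gm φ (fun _ => (0 : M)) := (gm_eq φ).2 hl
    rw [gm_lin φ l (fun q j => z1 q.1 j * u q.2 j), gm_zero] at h4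
    rw [← h4]
    refine Finset.sum_congr rfl fun q _ => ?_
    rw [gm_mul, (hz1 q.1).2]
  funext q
  exact (Fintype.linearIndependent_iff.1 hui') l h5 q

end Pool.Agent.Helper77.JN
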