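import Pool.Agent.Helper71.JN.SheetA
import Pool.Agent.Helper77.JN.Slsub

/-! Project JN, row SSO: the Subspace theorem with slow coefficients for classes in `Om`. -/

set_option autoImplicit false

namespace Pool.Agent.Helper77.JN

open Filter Finset Matrix Pool.Agent.Helper70.SUB Pool.Agent.Helper77.SUBK Pool.Agent.Helper70.SUBL
  Pool.Agent.Helper70.SUBW Pool.Agent.Helper47.SUBW Pool.Agent.Helper71.JN

theorem sm_coe {M : Type} [Field M] [NumberField M] {S : Finset ℕ} {P : PF S M}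
    {φ : Ultrafilter ℕ} {X : ℕ → ℝ} {n : ℕ} (c : Fin n → Sl P φ X) (e : Fin n → Om P φ X) :
    ((∑ k, c k • e k : Om P φ X) : UP M φ) = ∑ k, ((c k : Om P φ X) : UP M φ) * (e k : UP M φ) := by
  have h1 : ∀ k, c k • e k = (c k : Om P φ X) * e k := fun k => rfl
  simp only [h1]
  push_cast
  rfl

theorem SSO (hSUB : ST_SUBTU) (hSLW : ST_SLW) (hSVB : ST_SVB) (hOMG : ST_OMG) : ST_SSO := by
  classical
  intro M _ _ _ S P φ X nu n e f hS hX hN he hei hsp
  obtain ⟨o1, o2, o3, o4, o5, -, o7, -⟩ := hOMG M S P φ X hS hX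
  obtain ⟨v1, v2, -⟩ := hSVB M
  by_contra hlt
  push Not at hlt
  -- the families `f i` are independent
  have hfi : ∀ i, LinearIndependent (Sl P φ X) (f i) := by
    intro i
    rw [linearIndependent_iff_card_eq_finrank_span, Set.finrank, hsp i]
    exact (linearIndependent_iff_card_eq_finrank_span.1 hei)
  have hpos : ∀ i k, 0 < nu i (f i k) := fun i k => (nu i).pos ((hfi i).ne_zero k)
  -- representatives
  have hz : ∀ k, ∃ z : ℕ → M, OS P φ X z ∧ gm φ z = (e k : UP M φ) := fun k => (o1 _).1 (he k)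
  choose u hu1 hu2 using hz
  have hw : ∀ (i : Pl S M) (k : Fin n), ∃ z : ℕ → M, gm φ z = (f i k : UP M φ) :=
    fun i k => o7 _
  choose F hF using hw
  set g : Option ℕ → (M ≃ₐ[ℚ] M) → Fin n → ℕ → M := fun v σ k =>
    if hv : v ∈ plc S then F (⟨v, hv⟩, σ) k else fun _ => 0 with hg
  set a : Option ℕ → (M ≃ₐ[ℚ] M) → Fin n → ℝ := fun v σ k =>
    if hv : v ∈ plc S then Real.log (nu (⟨v, hv⟩, σ) (f (⟨v, hv⟩, σ) k)) else 0 with ha
  have hgv : ∀ (v : Option ℕ) (hv : v ∈ plc S) (σ : M ≃ₐ[ℚ] M) (k : Fin n),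
      g v σ k = F (⟨v, hv⟩, σ) k := by
    intro v hv σ k
    simp only [hg, dif_pos hv]
  have hav : ∀ (v : Option ℕ) (hv : v ∈ plc S) (σ : M ≃ₐ[ℚ] M) (k : Fin n),
      a v σ k = Real.log (nu (⟨v, hv⟩, σ) (f (⟨v, hv⟩, σ) k)) := by
    intro v hv σ k
    simp only [ha, dif_pos hv]
  -- slow coefficients as elements of the field `Sl`
  have hsl : ∀ c : UP M φ, SlG P φ X c → ∃ c' : Sl P φ X, ((c' : Om P φ X) : UP M φ) = c := by
    rintro c ⟨z, hz, rfl⟩
    have h1 : gm φ z ∈ Om P φ X := o5 z hz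
    refine ⟨⟨⟨gm φ z, h1⟩, ?_⟩, rfl⟩
    exact (o3 ⟨gm φ z, h1⟩).2 ⟨z, hz, rfl⟩
  have hind : ∀ (b : Fin n → Om P φ X), LinearIndependent (Sl P φ X) b →
      ∀ c : Fin n → UP M φ, (∀ k, SlG P φ X (c k)) → ∑ k, c k * (b k : UP M φ) = 0 → c = 0 := by
    intro b hb c hc h0
    choose c' hc' using fun k => hsl (c k) (hc k)
    have h1 : ∑ k, c' k • b k = 0 := by
      apply Subtype.ext
      rw [sm_coe]
      simp only [hc']
      exact h0
    funext k
    have h2 := (Fintype.linearIndependent_iff.1 hb) c' h1 k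
    rw [← hc' k, h2]
    rfl
  obtain ⟨A, hA⟩ : ∃ A : Fin n → ℝ, ∀ k, 0 < A k ∧
      ∀ᶠ j in (φ : Filter ℕ), HB P (X j ^ A k) (u k j) := by
    choose A hA using fun k => (hu1 k).2
    exact ⟨A, hA⟩
  obtain ⟨c, hc0, hc, hcs⟩ := SLSUB hSUB hSLW hSVB M S P φ X (Fin n) u g a (∑ k, A k) hS hX
    (by
      intro ε' hε'
      have h1 : ∀ᶠ j in (φ : Filter ℕ), ∀ k : Fin n, ∃ D : ℕ, D ≠ 0 ∧
          (D : ℝ) ≤ X j ^ (ε' / (n + 1)) ∧ SI S ((D : M) * u k j) :=
        Filter.eventually_all.2 fun k => (hu1 k).1 (ε' / (n + 1)) (by positivity)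
      filter_upwards [h1, hX.eventually_ge_atTop 1] with j hj hX1
      have hX0 : 0 < X j := by linarith
      choose D hD0 hD1 hD2 using hj
      refine ⟨∏ k, D k, Finset.prod_ne_zero_iff.2 fun k _ => hD0 k, ?_, ?_⟩
      · push_cast
        calc ∏ k, (D k : ℝ) ≤ ∏ _k : Fin n, X j ^ (ε' / (n + 1)) :=
              Finset.prod_le_prod (fun k _ => Nat.cast_nonneg _) fun k _ => hD1 k
          _ = X j ^ (ε' / (n + 1) * n) := by
              rw [Finset.prod_const, Finset.card_univ, Fintype.card_fin, ← Real.rpow_natCast,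
                ← Real.rpow_mul hX0.le]
          _ ≤ X j ^ ε' := by
              apply Real.rpow_le_rpow_of_exponent_le hX1
              rw [div_mul_eq_mul_div, div_le_iff₀ (by positivity)]
              nlinarith
      · intro k
        have h2 : ((∏ k, D k : ℕ) : M) * u k j
            = ((∏ l ∈ univ.erase k, D l : ℕ) : M) * ((D k : M) * u k j) := by
          rw [← mul_assoc]
          congr 1
          rw [← Finset.mul_prod_erase univ D (Finset.mem_univ k)]
          push_cast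
          ring
        rw [h2]
        refine (v2 S _ _ (v1 S _ ?_) (hD2 k)).2
        have h3 : IsIntegral ℤ (((∏ l ∈ univ.erase k, D l : ℕ) : ℤ) : M) := isIntegral_algebraMap
        exact_mod_cast h3)
    (by
      have h1 : ∀ᶠ j in (φ : Filter ℕ), ∀ k : Fin n, HB P (X j ^ A k) (u k j) :=
        Filter.eventually_all.2 fun k => (hA k).2
      filter_upwards [h1, hX.eventually_ge_atTop 1] with j hj hX1 v hv σ k
      refine (hj k v hv σ).trans ?_
      exact Real.rpow_le_rpow_of_exponent_le hX1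
        (Finset.single_le_sum (fun i _ => (hA i).1.le) (Finset.mem_univ k)))
    (by
      intro v hv σ k
      rw [hgv v hv σ k]
      have h1 : f (⟨v, hv⟩, σ) k ∈ Submodule.span (Sl P φ X) (Set.range e) := by
        rw [← hsp (⟨v, hv⟩, σ)]
        exact Submodule.subset_span ⟨k, rfl⟩
      rw [Submodule.mem_span_range_iff_exists_fun] at h1
      obtain ⟨c, hc⟩ := h1
      refine ⟨fun k => ((c k : Om P φ X) : UP M φ), fun k => (o3 _).1 (c k).2, ?_⟩
      rw [hF, ← hc, sm_coe]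
      exact Finset.sum_congr rfl fun k _ => by rw [hu2])
    (by
      intro v hv σ c hc h0
      apply hind (f (⟨v, hv⟩, σ)) (hfi _) c hc
      rw [← h0]
      exact Finset.sum_congr rfl fun k _ => by rw [hgv v hv σ k, hF])
    (by
      intro v hv σ k ε hε
      rw [hgv v hv σ k, hav v hv σ k]
      have h1 := (hN.2 (⟨v, hv⟩, σ) (f (⟨v, hv⟩, σ) k) (F (⟨v, hv⟩, σ) k) (hF _ _)
        (Real.log (nu (⟨v, hv⟩, σ) (f (⟨v, hv⟩, σ) k)))).1.1
        (by rw [Real.exp_log (hpos _ _)])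
      exact h1 ε hε)
    (by
      have h1 : ∑ v ∈ plc S, ∑ σ : M ≃ₐ[ℚ] M, ∑ k, a v σ k
          = ∑ i : Pl S M, ∑ k, Real.log (nu i (f i k)) := by
        rw [Fintype.sum_prod_type, ← Finset.sum_coe_sort]
        refine Finset.sum_congr rfl fun v _ => Finset.sum_congr rfl fun σ _ =>
          Finset.sum_congr rfl fun k _ => ?_
        exact hav v.1 v.2 σ k
      rw [h1]
      have h2 : ∑ i : Pl S M, ∑ k, Real.log (nu i (f i k))
          = Real.log (∏ i, ∏ k, nu i (f i k)) := by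
        rw [Real.log_prod fun i _ => Finset.prod_ne_zero_iff.2 fun k _ => (hpos i k).ne']
        refine Finset.sum_congr rfl fun i _ => ?_
        rw [Real.log_prod fun k _ => (hpos i k).ne']
      rw [h2]
      exact Real.log_neg (Finset.prod_pos fun i _ => Finset.prod_pos fun k _ => hpos i k) hlt)
  apply hc0
  apply hind e hei c hc
  rw [← hcs]
  exact Finset.sum_congr rfl fun k _ => by rw [hu2]

end Pool.Agent.Helper77.JN
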