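import Pool.Agent.Helper71.JN.SheetF
import Pool.Agent.Helper77.JN.IntZ

/-! Project JN, row ZS: the S-version of INTZ. -/

set_option autoImplicit false

namespace Pool.Agent.Helper77.JN

open MvPolynomial Finset Pool.Agent.Helper71.JN Pool.Agent.Helper47.JN

variable {F Ω : Type} [Field F] [Field Ω] [Algebra F Ω] {I : Type} [Fintype I] {r : ℕ}

theorem size_five (a b z s : ℝ) (ha : 0 ≤ a) (hb : 0 ≤ b) (hs : 0 < s) (h1 : z ≤ a * b)
    (h2 : b * z ≤ a * s ^ 6) (h4 : a ^ 3 ≤ max (b ^ 2) (s ^ 6)) : z ≤ s ^ 5 := by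
  by_cases hb2 : b ^ 2 ≤ s ^ 6
  · rw [max_eq_right hb2] at h4
    have hb3 : b ≤ s ^ 3 := by
      rw [← pow_le_pow_iff_left₀ hb (pow_nonneg hs.le 3) two_ne_zero]
      exact hb2.trans (le_of_eq (by ring))
    have ha3 : a ≤ s ^ 2 := by
      rw [← pow_le_pow_iff_left₀ ha (pow_nonneg hs.le 2) three_ne_zero]
      exact h4.trans (le_of_eq (by ring))
    calc z ≤ a * b := h1
      _ ≤ s ^ 2 * s ^ 3 := mul_le_mul ha3 hb3 hb (pow_nonneg hs.le 2)
      _ = s ^ 5 := by ring
  · push Not at hb2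
    rw [max_eq_left hb2.le] at h4
    have hbp : 0 < b := by
      rcases hb.lt_or_eq with h | h
      · exact h
      · exfalso
        rw [← h] at hb2
        have := pow_pos hs 6
        norm_num at hb2
        linarith
    by_contra hz
    push Not at hz
    have h5 : b * s ^ 5 < (a * s) * s ^ 5 := by
      calc b * s ^ 5 < b * z := mul_lt_mul_of_pos_left hz hbp
        _ ≤ a * s ^ 6 := h2
        _ = (a * s) * s ^ 5 := by ring
    have h6 : b < a * s := lt_of_mul_lt_mul_right h5 (pow_nonneg hs.le 5)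
    have h7 : b ^ 3 < (a * s) ^ 3 := pow_lt_pow_left₀ h6 hb three_ne_zero
    have h8 : b ^ 2 * b < b ^ 2 * s ^ 3 := by
      calc b ^ 2 * b = b ^ 3 := by ring
        _ < (a * s) ^ 3 := h7
        _ = a ^ 3 * s ^ 3 := by ring
        _ ≤ b ^ 2 * s ^ 3 := mul_le_mul_of_nonneg_right h4 (pow_nonneg hs.le 3)
    have h9 : b < s ^ 3 := lt_of_mul_lt_mul_left h8 (pow_nonneg hb 2)
    have h10 : b ^ 2 < (s ^ 3) ^ 2 := pow_lt_pow_left₀ h9 hb two_ne_zero
    have h11 : (s ^ 3) ^ 2 = s ^ 6 := by ring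
    linarith

theorem prod_split (J : Finset I) [DecidablePred (fun i : I => i ∉ J)] (f : I → ℝ) :
    (∏ i ∈ J, f i) * ∏ i ∈ univ.filter (fun i => i ∉ J), f i = ∏ i, f i := by
  classical
  rw [← Finset.prod_mul_prod_compl J f]
  have h : univ.filter (fun i => i ∉ J) = Jᶜ := by
    ext i
    simp
  rw [h]

/-- the S-version of INTZ -/
theorem INTZS [CharZero Ω] (D : SSF F Ω I r) (J : Finset I)
    [DecidablePred (fun i : I => i ∉ J)] (hJ : J.Nonempty)
    (x y d : Ω) (hx : x ∈ D.K) (hy : y ∈ D.K) (hd : d ∈ D.R) (hd0 : d ≠ 0)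
    (heq : y ^ 2 = x ^ 3 + d) (hsx : ∀ i ∈ J, D.nu i x = Real.exp 2)
    (hsy : ∀ i ∈ J, D.nu i y = Real.exp 3) (hsd : ∀ i ∈ J, D.nu i d < Real.exp 6)
    (hpd : (∏ i ∈ J, D.nu i d * Real.exp (-1)) *
      ∏ i ∈ univ.filter (fun i => i ∉ J), D.nu i d ^ (5 / 6 : ℝ) < 1) : False := by
  have hF : CharZero F := (algebraMap F Ω).charZero
  -- clear the monomial denominator of `d`
  obtain ⟨m0, p0, hdp⟩ := R_form D d hd
  set M : Fin r → ℤ := fun k => |m0 k| with hM
  set μ : Ω := mon D.w M with hμ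
  have hμ0 : μ ≠ 0 := mon_ne D.w0 M
  obtain ⟨q0, hq0⟩ := exists_nat D (6 • M + m0) (by
    intro k
    have h1 := neg_abs_le (m0 k)
    have h2 := abs_nonneg (m0 k)
    have h3 : (6 • M + m0) k = 6 * |m0 k| + m0 k := by
      rw [Pi.add_apply, Pi.smul_apply, hM, nsmul_eq_mul]
      rfl
    rw [Pi.zero_apply, h3]
    linarith)
  set δ : MvPolynomial (Fin r) F := q0 * p0 with hδ
  have hevδ : D.ev δ = μ ^ 6 * d := by
    rw [hδ, map_mul, ← hq0, mon_add D.w0, mon_nsmul, hdp, hμ]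
    ring
  have hμK : μ ∈ D.K := R_le_K D _ (mon_mem D M)
  obtain ⟨p1, q1, hq1, hx1⟩ := K_form D (μ ^ 2 * x) (mul_mem (pow_mem hμK 2) hx)
  obtain ⟨p2, q2, hq2, hy1⟩ := K_form D (μ ^ 3 * y) (mul_mem (pow_mem hμK 3) hy)
  obtain ⟨a, b, g1, hab, hg1a, hg1b⟩ :=
    UniqueFactorizationMonoid.exists_reduced_factors' p1 q1 hq1
  obtain ⟨c, e, g2, hce, hg2c, hg2e⟩ :=
    UniqueFactorizationMonoid.exists_reduced_factors' p2 q2 hq2
  have hb0 : b ≠ 0 := by
    rintro rfl
    exact hq1 (by rw [← hg1b, mul_zero])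
  have he0 : e ≠ 0 := by
    rintro rfl
    exact hq2 (by rw [← hg2e, mul_zero])
  have hg10 : g1 ≠ 0 := by
    rintro rfl
    exact hq1 (by rw [← hg1b, zero_mul])
  have hg20 : g2 ≠ 0 := by
    rintro rfl
    exact hq2 (by rw [← hg2e, zero_mul])
  have hevb : D.ev b ≠ 0 := ev_ne D b hb0
  have heve : D.ev e ≠ 0 := ev_ne D e he0
  have hx2 : μ ^ 2 * x * D.ev b = D.ev a := by
    rw [hx1, ← hg1a, ← hg1b, map_mul, map_mul]
    have := ev_ne D g1 hg10
    field_simp
  have hy2 : μ ^ 3 * y * D.ev e = D.ev c := by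
    rw [hy1, ← hg2c, ← hg2e, map_mul, map_mul]
    have := ev_ne D g2 hg20
    field_simp
  have h1 : c ^ 2 * b ^ 3 = e ^ 2 * (a ^ 3 + δ * b ^ 3) := by
    apply ev_inj D
    simp only [map_mul, map_pow, map_add]
    rw [← hx2, ← hy2, hevδ]
    have h2 : y ^ 2 = x ^ 3 + d := heq
    linear_combination (μ ^ 6 * D.ev e ^ 2 * D.ev b ^ 3) * h2
  obtain ⟨A, B, E, hE0, hBE, hA, hB⟩ := coprime_form hb0 he0 hab hce h1
  have hevE : D.ev E ≠ 0 := ev_ne D E hE0
  have hX : D.ev A = μ ^ 2 * x * D.ev E ^ 2 := by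
    have h2 : D.ev a * D.ev E ^ 2 = D.ev A * D.ev b := by
      rw [← map_pow, ← map_mul, hA, map_mul]
    rw [← hx2] at h2
    have h3 : D.ev b * (D.ev A - μ ^ 2 * x * D.ev E ^ 2) = 0 := by
      linear_combination -h2
    exact sub_eq_zero.1 ((mul_eq_zero.1 h3).resolve_left hevb)
  have hY : D.ev B = μ ^ 3 * y * D.ev E ^ 3 := by
    have h2 : D.ev c * D.ev E ^ 3 = D.ev B * D.ev e := by
      rw [← map_pow, ← map_mul, hB, map_mul]
    rw [← hy2] at h2
    have h3 : D.ev e * (D.ev B - μ ^ 3 * y * D.ev E ^ 3) = 0 := by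
      linear_combination -h2
    exact sub_eq_zero.1 ((mul_eq_zero.1 h3).resolve_left heve)
  have hmain : B ^ 2 = A ^ 3 + δ * E ^ 6 := by
    apply ev_inj D
    simp only [map_mul, map_pow, map_add]
    rw [hX, hY, hevδ]
    linear_combination (μ ^ 6 * D.ev E ^ 6) * heq
  obtain ⟨i0, hi0⟩ := hJ
  have hx0 : x ≠ 0 := by
    rintro rfl
    have := hsx i0 hi0
    rw [map_zero] at this
    exact (Real.exp_pos 2).ne this
  have hA0 : A ≠ 0 := by
    rintro rfl
    rw [map_zero] at hX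
    exact mul_ne_zero (mul_ne_zero (pow_ne_zero 2 hμ0) hx0) (pow_ne_zero 2 hevE) hX.symm
  have hμp : ∀ i, 0 < D.nu i μ := fun i => (D.nu i).pos hμ0
  have hEp : ∀ i, 0 < D.nu i (D.ev E) := fun i => (D.nu i).pos hevE
  -- the integral logarithmic derivative
  have key : ∀ k, 2 * A * lder k B - 3 * B * lder k A = 0 := by
    intro k
    have e1 : B * (2 * A * lder k B - 3 * B * lder k A) =
        E ^ 5 * (A * E * lder k δ - 3 * δ * E * lder k A + 6 * A * δ * lder k E) := by
      have h2 : lder k (B ^ 2) = lder k (A ^ 3 + δ * E ^ 6) := by rw [hmain]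
      have h3 : ∀ f : MvPolynomial (Fin r) F, lder k (f ^ 2) = 2 * f * lder k f := fun f => by
        rw [pow_two, lder_mul]
        ring
      have h4 : ∀ f : MvPolynomial (Fin r) F, lder k (f ^ 3) = 3 * f ^ 2 * lder k f := fun f => by
        rw [pow_succ, lder_mul, h3]
        ring
      have h5 : lder k (E ^ 6) = 6 * E ^ 5 * lder k E := by
        have : E ^ 6 = (E ^ 3) ^ 2 := by ring
        rw [this, h3, h4]
        ring
      rw [lder_add, lder_mul, h3, h4, h5] at h2
      linear_combination A * h2 - 3 * lder k A * hmain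
    have hdvd : E ^ 5 ∣ 2 * A * lder k B - 3 * B * lder k A := by
      refine IsRelPrime.dvd_of_dvd_mul_left ?_ (Dvd.intro _ e1.symm)
      exact (hBE.symm.pow_left (m := 5))
    obtain ⟨z, hz⟩ := hdvd
    have e2 : B * z = A * E * lder k δ - 3 * δ * E * lder k A + 6 * A * δ * lder k E := by
      rw [hz] at e1
      have h3 : E ^ 5 * (B * z) =
          E ^ 5 * (A * E * lder k δ - 3 * δ * E * lder k A + 6 * A * δ * lder k E) := by
        linear_combination e1
      exact mul_left_cancel₀ (pow_ne_zero 5 hE0) h3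
    by_contra hne
    have hz0 : z ≠ 0 := by
      rintro rfl
      exact hne (by rw [hz, mul_zero])
    set Z : Ω := mon D.w (-(5 • M)) * D.ev z with hZ
    have hZR : Z ∈ D.R := Subalgebra.mul_mem _ (mon_mem D _) (ev_mem D z)
    have hZ0 : Z ≠ 0 := mul_ne_zero (mon_ne D.w0 _) (ev_ne D z hz0)
    have hnZ : ∀ i, D.nu i Z * D.nu i μ ^ 5 = D.nu i (D.ev z) := by
      intro i
      rw [hZ, mon_neg, mon_nsmul, ← hμ, map_mul, map_inv₀, map_pow]
      have := (hμp i).ne'
      field_simp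
    have hb1 : ∀ i, D.nu i Z ≤ D.nu i x * D.nu i y := by
      intro i
      have h3 : D.nu i (D.ev (E ^ 5 * z)) ≤ D.nu i (D.ev A) * D.nu i (D.ev B) := by
        rw [← hz]
        have e3 : D.ev (2 * A * lder k B - 3 * B * lder k A) =
            ((2 : ℕ) : Ω) * (D.ev A * D.ev (lder k B)) +
              ((3 : ℕ) : Ω) * (-(D.ev B * D.ev (lder k A))) := by
          simp only [map_sub, map_mul, map_ofNat]
          push_cast
          ring
        rw [e3]
        refine (D.ult i _ _).trans (max_le ?_ ?_)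
        · refine (nu_nat_mul D i 2 _).trans ?_
          rw [map_mul]
          exact mul_le_mul_of_nonneg_left (nu_lder D i k B) ((D.nu i).nonneg _)
        · refine (nu_nat_mul D i 3 _).trans ?_
          rw [AbsoluteValue.map_neg, map_mul, mul_comm (D.nu i (D.ev A))]
          exact mul_le_mul_of_nonneg_left (nu_lder D i k A) ((D.nu i).nonneg _)
      rw [map_mul, map_pow, map_mul, map_pow, hX, hY, ← hnZ i] at h3
      simp only [map_mul, map_pow] at h3
      have h4 : (D.nu i (D.ev E) ^ 5 * D.nu i μ ^ 5) * D.nu i Z ≤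
          (D.nu i (D.ev E) ^ 5 * D.nu i μ ^ 5) * (D.nu i x * D.nu i y) := by
        refine le_trans (le_of_eq (by ring)) (h3.trans (le_of_eq (by ring)))
      exact le_of_mul_le_mul_left h4 (mul_pos (pow_pos (hEp i) 5) (pow_pos (hμp i) 5))
    have hb2 : ∀ i, D.nu i y * D.nu i Z ≤ D.nu i x * D.nu i d := by
      intro i
      have h3 : D.nu i (D.ev (B * z)) ≤
          D.nu i (D.ev A) * D.nu i (D.ev E) * D.nu i (D.ev δ) := by
        rw [e2]
        have e3 : D.ev (A * E * lder k δ - 3 * δ * E * lder k A + 6 * A * δ * lder k E) =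
            (D.ev A * D.ev E * D.ev (lder k δ) +
              ((3 : ℕ) : Ω) * (-(D.ev δ * D.ev E * D.ev (lder k A)))) +
              ((6 : ℕ) : Ω) * (D.ev A * D.ev δ * D.ev (lder k E)) := by
          simp only [map_sub, map_mul, map_add, map_ofNat]
          push_cast
          ring
        rw [e3]
        have hnn : ∀ w : Ω, 0 ≤ D.nu i w := fun w => (D.nu i).nonneg w
        refine (D.ult i _ _).trans (max_le ((D.ult i _ _).trans (max_le ?_ ?_)) ?_)
        · rw [map_mul, map_mul]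
          exact mul_le_mul_of_nonneg_left (nu_lder D i k δ) (mul_nonneg (hnn _) (hnn _))
        · refine (nu_nat_mul D i 3 _).trans ?_
          rw [AbsoluteValue.map_neg, map_mul, map_mul]
          calc D.nu i (D.ev δ) * D.nu i (D.ev E) * D.nu i (D.ev (lder k A)) ≤
              D.nu i (D.ev δ) * D.nu i (D.ev E) * D.nu i (D.ev A) :=
                mul_le_mul_of_nonneg_left (nu_lder D i k A) (mul_nonneg (hnn _) (hnn _))
            _ = _ := by ring
        · refine (nu_nat_mul D i 6 _).trans ?_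
          rw [map_mul, map_mul]
          calc D.nu i (D.ev A) * D.nu i (D.ev δ) * D.nu i (D.ev (lder k E)) ≤
              D.nu i (D.ev A) * D.nu i (D.ev δ) * D.nu i (D.ev E) :=
                mul_le_mul_of_nonneg_left (nu_lder D i k E) (mul_nonneg (hnn _) (hnn _))
            _ = _ := by ring
      rw [map_mul, map_mul, hX, hY, hevδ, ← hnZ i] at h3
      simp only [map_mul, map_pow] at h3
      have h4 : (D.nu i (D.ev E) ^ 3 * D.nu i μ ^ 8) * (D.nu i y * D.nu i Z) ≤
          (D.nu i (D.ev E) ^ 3 * D.nu i μ ^ 8) * (D.nu i x * D.nu i d) := by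
        refine le_trans (le_of_eq (by ring)) (h3.trans (le_of_eq (by ring)))
      exact le_of_mul_le_mul_left h4 (mul_pos (pow_pos (hEp i) 3) (pow_pos (hμp i) 8))
    have hJle : ∀ i ∈ J, D.nu i Z ≤ D.nu i d * Real.exp (-1) := by
      intro i hi
      have h3 := hb2 i
      rw [hsx i hi, hsy i hi] at h3
      have h4 : Real.exp 3 * D.nu i Z ≤ Real.exp 3 * (D.nu i d * Real.exp (-1)) := by
        refine h3.trans (le_of_eq ?_)
        have e3 : Real.exp 3 * Real.exp (-1) = Real.exp 2 := by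
          rw [← Real.exp_add]
          norm_num
        rw [← e3]
        ring
      exact le_of_mul_le_mul_left h4 (Real.exp_pos 3)
    have hle : ∀ i, D.nu i Z ≤ D.nu i d ^ (5 / 6 : ℝ) := by
      intro i
      have hd' : 0 < D.nu i d := (D.nu i).pos hd0
      have hs : 0 < D.nu i d ^ (1 / 6 : ℝ) := Real.rpow_pos_of_pos hd' _
      have e6 : (D.nu i d ^ (1 / 6 : ℝ)) ^ 6 = D.nu i d := by
        rw [← Real.rpow_natCast, ← Real.rpow_mul hd'.le]
        norm_num
      have e5 : (D.nu i d ^ (1 / 6 : ℝ)) ^ 5 = D.nu i d ^ (5 / 6 : ℝ) := by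
        rw [← Real.rpow_natCast, ← Real.rpow_mul hd'.le]
        norm_num
      rw [← e5]
      refine size_five (D.nu i x) (D.nu i y) (D.nu i Z) _ ((D.nu i).nonneg _)
        ((D.nu i).nonneg _) hs (hb1 i) ?_ ?_
      · rw [e6]
        exact hb2 i
      · rw [e6, ← map_pow, ← map_pow]
        have e3 : x ^ 3 = y ^ 2 + -d := by rw [heq]; ring
        rw [e3]
        refine (D.ult i _ _).trans (le_of_eq ?_)
        rw [AbsoluteValue.map_neg]
    have hprod := prod_ge D Z (R_le_O D Z hZR) hZ0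
    rw [← prod_split J] at hprod
    have hlt : (∏ i ∈ J, D.nu i Z) * ∏ i ∈ univ.filter (fun i => i ∉ J), D.nu i Z ≤
        (∏ i ∈ J, D.nu i d * Real.exp (-1)) *
          ∏ i ∈ univ.filter (fun i => i ∉ J), D.nu i d ^ (5 / 6 : ℝ) := by
      refine mul_le_mul (Finset.prod_le_prod (fun i _ => (D.nu i).nonneg _) hJle)
        (Finset.prod_le_prod (fun i _ => (D.nu i).nonneg _) (fun i _ => hle i))
        (Finset.prod_nonneg fun i _ => (D.nu i).nonneg _)
        (Finset.prod_nonneg fun i _ => mul_nonneg ((D.nu i).nonneg _) (Real.exp_pos _).le)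
    linarith
  -- the logarithmic derivatives of `B ^ 2` and `A ^ 3` agree
  obtain ⟨c0, hc0⟩ := kernel (f := B ^ 2) (g := A ^ 3) (pow_ne_zero 3 hA0) (by
    intro k
    have h3 : lder k (B ^ 2) = 2 * B * lder k B := by
      rw [pow_two, lder_mul]
      ring
    have h4 : lder k (A ^ 3) = 3 * A ^ 2 * lder k A := by
      have e3 : A ^ 3 = A * (A * A) := by ring
      rw [e3, lder_mul, lder_mul]
      ring
    rw [h3, h4]
    linear_combination (A ^ 2 * B) * key k)
  have h2 : D.ev δ * D.ev E ^ 6 = algebraMap F Ω (c0 - 1) * D.ev A ^ 3 := by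
    have h3 : δ * E ^ 6 = C (c0 - 1) * A ^ 3 := by
      rw [map_sub, map_one]
      linear_combination -hmain + hc0
    have h4 : D.ev (δ * E ^ 6) = D.ev (C (c0 - 1) * A ^ 3) := by rw [h3]
    have h5 : D.ev (C (c0 - 1)) = algebraMap F Ω (c0 - 1) := by
      simp [SSF.ev]
    rw [← h5, ← map_pow, ← map_mul, h4, map_mul, map_pow]
  by_cases hc1 : c0 - 1 = 0
  · rw [hc1, map_zero, zero_mul, hevδ] at h2
    exact mul_ne_zero (mul_ne_zero (pow_ne_zero 6 hμ0) hd0) (pow_ne_zero 6 hevE) h2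
  · have h3 := congrArg (D.nu i0) h2
    rw [nu_term D i0 _ hc1, hevδ, hX] at h3
    simp only [map_mul, map_pow] at h3
    have h4 : (D.nu i0 μ ^ 6 * D.nu i0 (D.ev E) ^ 6) * D.nu i0 d =
        (D.nu i0 μ ^ 6 * D.nu i0 (D.ev E) ^ 6) * D.nu i0 x ^ 3 := by
      refine Eq.trans (by ring) (h3.trans (by ring))
    have h5 := mul_left_cancel₀
      (mul_pos (pow_pos (hμp i0) 6) (pow_pos (hEp i0) 6)).ne' h4
    rw [hsx i0 hi0, ← Real.exp_nat_mul] at h5
    have h6 := hsd i0 hi0
    rw [h5, Real.exp_lt_exp] at h6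
    norm_num at h6

open scoped Classical in
/-- (ZS) -/
theorem ZS : ST_ZS := by
  intro F Ω _ _ _ _ I _ r D J X Y d hJ hX hY hd hd0 heq h1 h2 h3
  exact @INTZS F Ω _ _ _ I _ r _ D J _ hJ X Y d hX hY hd hd0 heq (fun i hi => (h1 i hi).1)
    (fun i hi => (h1 i hi).2.1) (fun i hi => (h1 i hi).2.2) h3

end Pool.Agent.Helper77.JN
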