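import Pool.Agent.Helper71.JN.SheetE
import Pool.Agent.Helper77.JN.FINU

/-!
Project JN, rows FINV and WEAK: theorem W+ for a finitely generated group of algebraic numbers and
the weak form of Hall's conjecture near sparse points.
-/

set_option autoImplicit false

namespace Pool.Agent.Helper77.JN

open Polynomial Filter Finset Pool.Agent.Helper70.SUB Pool.Agent.Helper77.SUBK
  Pool.Agent.Helper70.SUBL Pool.Agent.Helper70.SUBW Pool.Agent.Helper71.JN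

/-- (FINV) -/
theorem FINV (hT1V : ST_T1V) (hSVB : ST_SVB) : ST_FINV := by
  classical
  intro Γ t ε η B hfg halg hε hη
  obtain ⟨M, iF, iN, iG, S, φ, ζ, hS, hζ, hΓ⟩ := Helper45.SUBK.field_exists hSVB Γ hfg halg
  obtain ⟨h1, h2, h3, h4, h5, h6, h7, h8, h9, h10, h11, h12⟩ := hSVB M
  obtain ⟨κ, hκ, C, hC⟩ := hT1V M S φ ζ t ε η B hS hζ hε hη
  have hw : ∀ (H : ℝ) (z : ℂ), WSum Γ t H z → ∃ (c : Fin t → ℤ) (a : Fin t → M),
      (∀ i, SV S (a i)) ∧ (∀ i, |(c i : ℝ)| ≤ H) ∧ φ (∑ i, (c i : M) * a i) = z := by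
    intro H z hz
    obtain ⟨c, γ, hγ, hc, hzs⟩ := hz
    choose ρ hρS hρ using fun i => hΓ (γ i) (hγ i)
    have e : φ (∑ i, (c i : M) * ρ i ^ (6 : ℤ)) = z := by
      rw [map_sum, hzs]
      refine Finset.sum_congr rfl fun i _ => ?_
      rw [map_mul, map_intCast, map_zpow₀, ← hρ i]
      norm_cast
    exact ⟨c, fun i => ρ i ^ (6 : ℤ), fun i => h8 S _ _ (hρS i), hc, e⟩
  have hs : ∀ (H H' : ℝ) (z : ℂ), Sparse Γ t H H' z → ∃ (c : Fin t → ℤ) (a : Fin t → M),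
      (∀ i, SV S (a i)) ∧ (∀ i, |(c i : ℝ)| ≤ H) ∧ φ (∑ i, (c i : M) * a i) = z ∧
      HBZ φ H' (∑ i, (c i : M) * a i) := by
    intro H H' z hz
    obtain ⟨c, a, ha, hc, e⟩ := hw H z hz.1
    exact ⟨c, a, ha, hc, e, hbz_of φ e hz.2.1 hz.2.2⟩
  refine ⟨κ, hκ, C, ?_⟩
  intro x y p q hp hq hq0 hd hxy hne
  obtain ⟨c, a, ha, hc, hpa, hpB⟩ := hs _ _ _ hp
  obtain ⟨d, b, hb, hd', hqb, hqB⟩ := hs _ _ _ hq
  obtain ⟨e, f, hf, he, hef⟩ := hw _ _ hd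
  refine hC c d e a b f x y ha hb hf hc hd' he hpB hqB ?_ ?_ ?_ hne
  · intro h0
    exact hq0 (by rw [← hqb, h0, map_zero])
  · refine φ.injective ?_
    rw [hef, map_intCast]
  · rw [map_div₀, hpa, hqb]
    exact hxy

theorem wsum_succ {Γ : Subgroup ℂˣ} {t : ℕ} {H₀ H : ℝ} {z : ℂ} (hH : 0 ≤ H) (hHH : H₀ ≤ H)
    (h : WSum Γ t H₀ z) : WSum Γ (t + 1) H z := by
  obtain ⟨c, γ, hγ, hc, hz⟩ := h
  refine ⟨Fin.cons 0 c, Fin.cons 1 γ, fun i => ?_, fun i => ?_, ?_⟩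
  · refine Fin.cases ?_ (fun i => ?_) i
    · exact Γ.one_mem
    · exact hγ i
  · refine Fin.cases ?_ (fun i => ?_) i
    · rw [Fin.cons_zero, Int.cast_zero, abs_zero]
      exact hH
    · exact (hc i).trans hHH
  · rw [Fin.sum_univ_succ, hz]
    simp

theorem wsum_int (Γ : Subgroup ℂˣ) (t : ℕ) {H : ℝ} {n : ℤ} (hH : 0 ≤ H)
    (h : |(n : ℝ)| ≤ H) : WSum Γ (t + 1) H (n : ℂ) := by
  refine ⟨Fin.cons n fun _ => 0, fun _ => 1, fun i => Γ.one_mem, fun i => ?_, ?_⟩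
  · refine Fin.cases ?_ (fun i => ?_) i
    · exact h
    · rw [Fin.cons_succ, Int.cast_zero, abs_zero]
      exact hH
  · rw [Fin.sum_univ_succ]
    simp

/-- (WEAK) -/
theorem WEAK (hFINV : ST_FINV) : ST_WEAK := by
  classical
  intro Γ t η B hfg halg hη
  obtain ⟨κ', hκ', C', hC'⟩ := hFINV Γ (t + 1) 1 η B hfg halg one_pos hη
  refine ⟨min κ' (1 / 3), lt_min hκ' (by norm_num), |C'|, ?_⟩
  intro x y p q hp hq hq0 hxy hne
  have hd0 : (y ^ 2 - x ^ 3 : ℤ) ≠ 0 := sub_ne_zero.2 hne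
  have hd1 : (1 : ℝ) ≤ |((y ^ 2 - x ^ 3 : ℤ) : ℝ)| := by
    exact_mod_cast Int.one_le_abs hd0
  have hld : 0 ≤ Real.log |((y ^ 2 - x ^ 3 : ℤ) : ℝ)| := Real.log_nonneg hd1
  have hC0 : 0 ≤ |C'| := abs_nonneg _
  rcases eq_or_ne x 0 with h0 | h0
  · rw [h0, Int.cast_zero, abs_zero, Real.log_zero, mul_zero]
    rw [h0] at hld
    linarith
  have hx1 : (1 : ℝ) ≤ |(x : ℝ)| := by exact_mod_cast Int.one_le_abs h0
  have hlx : 0 ≤ Real.log |(x : ℝ)| := Real.log_nonneg hx1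
  have hpos : 0 < |(x : ℝ)| := by linarith
  by_cases hcase : |((y ^ 2 - x ^ 3 : ℤ) : ℝ)| ≤ |(x : ℝ)| ^ κ'
  · have hκκ : |(x : ℝ)| ^ min κ' (1 / 3) ≤ |(x : ℝ)| ^ κ' :=
      Real.rpow_le_rpow_of_exponent_le hx1 (min_le_left _ _)
    have key := hC' x y p q ⟨wsum_succ (by positivity) hκκ hp.1, hp.2⟩
      ⟨wsum_succ (by positivity) hκκ hq.1, hq.2⟩ hq0 (wsum_int Γ t (by positivity) hcase) hxy hne
    have h1 : min κ' (1 / 3) * Real.log |(x : ℝ)| ≤ 1 / 3 * Real.log |(x : ℝ)| :=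
      mul_le_mul_of_nonneg_right (min_le_right _ _) hlx
    have h2 := le_abs_self C'
    linarith
  · push Not at hcase
    have h1 : min κ' (1 / 3) * Real.log |(x : ℝ)| ≤ κ' * Real.log |(x : ℝ)| :=
      mul_le_mul_of_nonneg_right (min_le_left _ _) hlx
    have h2 : κ' * Real.log |(x : ℝ)| ≤ Real.log |((y ^ 2 - x ^ 3 : ℤ) : ℝ)| := by
      rw [← Real.log_rpow hpos]
      exact Real.log_le_log (by positivity) hcase.le
    linarith

end Pool.Agent.Helper77.JN
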