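import Pool.Agent.Helper77.JN.SpmSparse

/-!
Project JN, containment: the uniform theorem implies the row BRG.
-/

set_option autoImplicit false

namespace Pool.Agent.Helper77.JN

open Polynomial Filter Finset Pool.Agent.Helper70.SUB Pool.Agent.Helper77.SUBK
  Pool.Agent.Helper70.SUBL Pool.Agent.Helper70.SUBW Pool.Agent.Helper71.JN

theorem brg_of_finu (hSLW : ST_SLW) (hGALA : ST_GALA) (hDEN : ST_DEN) (hFINU : ST_FINU) :
    ST_BRG := by
  classical
  intro M _ _ _ S P φ x y X R R' β ε ρ hS hε hβ0 hβ hρ hX hXx hR hR' hev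
  obtain ⟨Γ, t, B, hfg, halg, hsp⟩ := sparse_of_spm hSLW hGALA hDEN M S P φ X hS hX R hR
  set η : ℝ := (1 / 2 - β) / 4 with hη
  have hη0 : 0 < η := by
    rw [hη]
    linarith
  obtain ⟨κ, hκ, C, hC⟩ := hFINU Γ t (ε / 2) η (B / 2) hfg halg (by linarith) hη0
  have hX2 : ∀ᶠ j in (φ : Filter ℕ), 2 ≤ X j := hX.eventually_ge_atTop 2
  have hXC : ∀ᶠ j in (φ : Filter ℕ), Real.exp (|C| * (2 * (2 + ε)) / ε + 1) ≤ X j :=
    hX.eventually_ge_atTop _
  obtain ⟨j, h1, h2, h3, h4, h5⟩ := (hX2.and (hXC.and (hXx.and ((hsp (2 * κ)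
    (by positivity)).and hev)))).exists
  obtain ⟨p, q, hp, hq, hq0, hpq⟩ := h4
  obtain ⟨hne, hd, hnx, -, -⟩ := h5
  have hX0 : 0 < X j := by linarith
  have hpow : ∀ a : ℝ, |(x j : ℝ)| ^ a = X j ^ (2 * a) := by
    intro a
    rw [← h3, ← Real.rpow_natCast, ← Real.rpow_mul hX0.le]
    norm_num
  have hx4 : (4 : ℝ) ≤ |(x j : ℝ)| := by
    rw [← h3]
    nlinarith
  have key := hC (x j) (y j) p q (by
      rw [hpow, hpow]
      have : 2 * (B / 2) = B := by ring
      rw [this]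
      exact hp) (by
      rw [hpow, hpow]
      have : 2 * (B / 2) = B := by ring
      rw [this]
      exact hq) hq0 (Or.inl (by
      rw [hpq, hpow]
      have e : (x j : ℂ) - P.emb (R j) ^ 2 = P.emb ((x j : M) - R j ^ 2) := by
        rw [map_sub, map_pow, map_intCast]
      rw [e, ← P.inf]
      refine hnx.trans (Real.rpow_le_rpow_of_exponent_le (by linarith) ?_)
      rw [hη]
      linarith)) hne
  have hd0 : (y j ^ 2 - x j ^ 3 : ℤ) ≠ 0 := sub_ne_zero.2 hne
  have hd1 : (1 : ℝ) ≤ |((y j ^ 2 - x j ^ 3 : ℤ) : ℝ)| := by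
    exact_mod_cast Int.one_le_abs hd0
  have hlogd : Real.log |((y j ^ 2 - x j ^ 3 : ℤ) : ℝ)| ≤
      1 / (2 + ε) * Real.log |(x j : ℝ)| := by
    rw [← Real.log_rpow (by linarith)]
    exact Real.log_le_log (by linarith) hd
  have hlx : Real.log |(x j : ℝ)| = 2 * Real.log (X j) := by
    rw [← h3, Real.log_pow]
    norm_num
  have hlX : |C| * (2 * (2 + ε)) / ε + 1 ≤ Real.log (X j) := by
    rw [Real.le_log_iff_exp_le hX0]
    exact h2
  have h2ε : 0 < 2 + ε := by linarith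
  have h6 : Real.log |(x j : ℝ)| ≤
      (2 + ε / 2) * (1 / (2 + ε) * Real.log |(x j : ℝ)|) + C :=
    key.trans (by
      have := mul_le_mul_of_nonneg_left hlogd (by linarith : (0 : ℝ) ≤ 2 + ε / 2)
      linarith)
  rw [hlx] at h6
  have h7 : (2 + ε) * (2 * Real.log (X j)) ≤
      (2 + ε / 2) * (2 * Real.log (X j)) + (2 + ε) * C := by
    have e : (2 + ε) * ((2 + ε / 2) * (1 / (2 + ε) * (2 * Real.log (X j))) + C) =
        (2 + ε / 2) * (2 * Real.log (X j)) + (2 + ε) * C := by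
      field_simp
    calc (2 + ε) * (2 * Real.log (X j)) ≤
        (2 + ε) * ((2 + ε / 2) * (1 / (2 + ε) * (2 * Real.log (X j))) + C) :=
          mul_le_mul_of_nonneg_left h6 h2ε.le
      _ = _ := e
  have h8 : ε * Real.log (X j) ≤ (2 + ε) * |C| := by
    have : (2 + ε) * C ≤ (2 + ε) * |C| := mul_le_mul_of_nonneg_left (le_abs_self C) h2ε.le
    nlinarith
  have h9 : |C| * (2 * (2 + ε)) + ε ≤ ε * Real.log (X j) := by
    have := mul_le_mul_of_nonneg_left hlX hε.le
    have e : ε * (|C| * (2 * (2 + ε)) / ε + 1) = |C| * (2 * (2 + ε)) + ε := by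
      field_simp
    linarith
  have h10 : 0 ≤ (2 + ε) * |C| := by positivity
  nlinarith

end Pool.Agent.Helper77.JN
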