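import Pool.Agent.Helper77.JN.BrgU
import Pool.Agent.Helper71.JN.AsmJ

/-!
Project JN, containment: the uniform theorem `ST_FINU` implies the theorem on dominated sums
`ST_FINJ` and the theorem `ST_FINW` on sparse points.
-/

set_option autoImplicit false

namespace Pool.Agent.Helper77.JN

open Polynomial Filter Finset Pool.Agent.Helper70.SUB Pool.Agent.Helper77.SUBK
  Pool.Agent.Helper70.SUBL Pool.Agent.Helper70.SUBW Pool.Agent.Helper71.JN

theorem brg_of_finu' (h : ST_FINU) : ST_BRG := brg_of_finu w_slw k_gala k_den h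

/-- the uniform theorem implies the theorem on integers close to dominated sums -/
theorem finj_of_finu (h : ST_FINU) : ST_FINJ :=
  Pool.Agent.Helper27.JN.FINJ
    (Pool.Agent.Helper47.JN.T1BJ EXTW w_pfe w_slw w_spw j_mod2 j_root (brg_of_finu' h))
    (Pool.Agent.Helper2.JN.T1CJ EXTW w_pfe w_slw w_spw j_mod2 j_root (brg_of_finu' h)) k_svb

/-- the elements of a finitely generated group as monomials -/
theorem exists_mon (Γ : Subgroup ℂˣ) (hfg : Γ.FG) :
    ∃ (k : ℕ) (g : Fin k → ℂˣ), (∀ l, g l ∈ Γ) ∧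
      ∀ γ ∈ Γ, ∃ e : Fin k → ℤ, ((γ : ℂˣ) : ℂ) = ∏ l, ((g l : ℂˣ) : ℂ) ^ e l := by
  classical
  obtain ⟨T, hT⟩ := hfg
  refine ⟨T.card, fun l => (T.equivFin.symm l : ℂˣ), fun l => ?_, fun γ hγ => ?_⟩
  · rw [← hT]
    exact Subgroup.subset_closure (T.equivFin.symm l).2
  · rw [← hT] at hγ
    induction hγ using Subgroup.closure_induction with
    | mem u hu =>
      refine ⟨fun l => if l = T.equivFin ⟨u, hu⟩ then 1 else 0, ?_⟩
      rw [Finset.prod_eq_single (T.equivFin ⟨u, hu⟩)]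
      · simp
      · intro l _ hl
        beta_reduce
        rw [if_neg hl, zpow_zero]
      · intro hl
        exact absurd (Finset.mem_univ _) hl
    | one => exact ⟨fun _ => 0, by simp⟩
    | mul u v _ _ hu hv =>
      obtain ⟨e, he⟩ := hu
      obtain ⟨e', he'⟩ := hv
      refine ⟨fun l => e l + e' l, ?_⟩
      rw [Units.val_mul, he, he', ← Finset.prod_mul_distrib]
      exact Finset.prod_congr rfl fun l _ => (zpow_add₀ (Units.ne_zero _) _ _).symm
    | inv u _ hu =>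
      obtain ⟨e, he⟩ := hu
      refine ⟨fun l => -e l, ?_⟩
      rw [Units.val_inv_eq_inv_val, he, ← Finset.prod_inv_distrib]
      exact Finset.prod_congr rfl fun l _ => (zpow_neg _ _).symm

theorem pow_le_int' {κ κ' : ℝ} (hκ : 0 < κ) (h : κ ≤ κ') (x : ℤ) :
    |(x : ℝ)| ^ κ ≤ |(x : ℝ)| ^ κ' := by
  rcases eq_or_ne x 0 with h0 | h0
  · subst h0
    rw [Int.cast_zero, abs_zero, Real.zero_rpow hκ.ne', Real.zero_rpow (hκ.trans_le h).ne']
  · have h1 : (1 : ℤ) ≤ |x| := Int.one_le_abs h0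
    have h2 : (1 : ℝ) ≤ |(x : ℝ)| := by exact_mod_cast h1
    exact Real.rpow_le_rpow_of_exponent_le h2 h

/-- an integer which is a sum of few terms is sparse -/
theorem sparse_int {Γ : Subgroup ℂˣ} {t : ℕ} {H H' : ℝ} {n : ℤ} (h : WSum Γ t H (n : ℂ))
    (h1 : 1 ≤ H') (hn : |(n : ℝ)| ≤ H') : Sparse Γ t H H' (n : ℂ) := by
  refine ⟨h, ⟨1, one_ne_zero, by rw [Nat.cast_one]; exact h1, ?_⟩, ?_⟩
  · rw [Nat.cast_one, one_mul]
    exact isIntegral_algebraMap (R := ℤ) (A := ℂ) (x := n)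
  · intro z' hz'
    have e1 : (n : ℂ) = (algebraMap ℚ ℂ) (n : ℚ) := by simp
    rw [e1] at hz'
    obtain ⟨ψ, hψ⟩ := conj_root (algebraMap ℚ ℂ) (n : ℚ) z' hz'
    rw [← hψ, map_intCast, Complex.norm_intCast]
    exact hn

/-- the uniform theorem contains the theorem on sparse points -/
theorem finw_of_finu (h : ST_FINU) : ST_FINW := by
  classical
  intro Γ t ε δ hfg halg hε hδ hδ1
  obtain ⟨κ1, hκ1, C1, hC1⟩ := h Γ t ε 1 2 hfg halg hε one_pos
  obtain ⟨k, g, hgΓ, hg⟩ := exists_mon Γ hfg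
  obtain ⟨κ2, hκ2, C2, hC2⟩ := finj_of_finu h k (fun l => ((g l : ℂˣ) : ℂ)) t ε δ (1 / 8) 0
    (fun l => ⟨Units.ne_zero _, halg _ (hgΓ l)⟩) hε hδ hδ1 (by norm_num)
  set κ : ℝ := min κ1 κ2 with hκd
  have hκ : 0 < κ := lt_min hκ1 hκ2
  have hdom : ∀ (n : ℤ) (θ : ℝ), WDom Γ t δ (|(n : ℝ)| ^ κ) (n : ℂ) →
      Near (fun l => ((g l : ℂˣ) : ℂ)) t δ 0 κ2 θ n := by
    rintro n θ ⟨γ₀, hγ₀, c, γ, hγ, hc, hsm, hz⟩
    obtain ⟨e₀, he₀⟩ := hg γ₀ hγ₀
    choose e he using fun i => hg (γ i) (hγ i)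
    have hsum : (n : ℂ) = ∏ l, ((g l : ℂˣ) : ℂ) ^ e₀ l +
        ∑ i, (c i : ℂ) * ∏ l, ((g l : ℂˣ) : ℂ) ^ e i l := by
      rw [hz, he₀]
      congr 1
      exact Finset.sum_congr rfl fun i _ => by rw [he i]
    refine ⟨e₀, e, c, fun i => (hc i).trans (pow_le_int' hκ (min_le_right _ _) n), fun i => ?_, ?_,
      Or.inl ⟨n, hsum.symm⟩⟩
    · rw [← he i, ← he₀]
      exact hsm i
    · rw [← hsum, sub_self, norm_zero]
      positivity
  refine ⟨κ, hκ, max (max C1 C2) 0, ?_⟩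
  intro x y hxy hne
  have hd0 : (y ^ 2 - x ^ 3 : ℤ) ≠ 0 := sub_ne_zero.2 hne
  have hd1 : (1 : ℝ) ≤ |((y ^ 2 - x ^ 3 : ℤ) : ℝ)| := by
    exact_mod_cast Int.one_le_abs hd0
  have hld : 0 ≤ Real.log |((y ^ 2 - x ^ 3 : ℤ) : ℝ)| := Real.log_nonneg hd1
  rcases hxy with ⟨hx, hy⟩ | hxy
  · by_cases hcase : |(x : ℝ)| ≤ |((y ^ 2 - x ^ 3 : ℤ) : ℝ)|
    · have h1 : Real.log |(x : ℝ)| ≤ Real.log |((y ^ 2 - x ^ 3 : ℤ) : ℝ)| := by
        rcases eq_or_ne x 0 with h0 | h0
        · subst h0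
          rw [Int.cast_zero, abs_zero, Real.log_zero]
          exact hld
        · exact Real.log_le_log (abs_pos.2 (by exact_mod_cast h0)) hcase
      have h2 : (0 : ℝ) ≤ max (max C1 C2) 0 := le_max_right _ _
      nlinarith
    · push Not at hcase
      have hx1 : 1 < |(x : ℝ)| := lt_of_le_of_lt hd1 hcase
      have hx2 : (2 : ℝ) ≤ |(x : ℝ)| := by
        have : (1 : ℤ) < |x| := by exact_mod_cast hx1
        exact_mod_cast (this : (2 : ℤ) ≤ |x|)
      have hx0 : x ≠ 0 := by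
        rintro rfl
        rw [Int.cast_zero, abs_zero] at hx2
        linarith
      have hxp : 0 < |(x : ℝ)| := by linarith
      have hsq : |(x : ℝ)| ^ (2 : ℝ) = |(x : ℝ)| ^ 2 := Real.rpow_two _
      have hyx : |(y : ℝ)| ≤ |(x : ℝ)| ^ (2 : ℝ) := by
        rw [hsq]
        refine abs_le_of_sq_le_sq' ?_ (by positivity) |> fun h => abs_le.2 h
        have e1 : ((y : ℝ)) ^ 2 = ((y ^ 2 - x ^ 3 : ℤ) : ℝ) + (x : ℝ) ^ 3 := by
          push_cast
          ring
        have e2 : ((y ^ 2 - x ^ 3 : ℤ) : ℝ) ≤ |(x : ℝ)| := (le_abs_self _).trans hcase.le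
        have e3 : (x : ℝ) ^ 3 ≤ |(x : ℝ)| ^ 3 := by
          rw [← abs_pow]
          exact le_abs_self _
        rw [e1]
        nlinarith [sq_nonneg (|(x : ℝ)|), pow_pos hxp 3, mul_pos hxp hxp]
      have key := hC1 x y (y : ℂ) (x : ℂ)
        (sparse_int (by
          obtain ⟨c, γ, hγ, hc, hz⟩ := hy
          exact ⟨c, γ, hγ, fun i => (hc i).trans (pow_le_int' hκ (min_le_left _ _) x), hz⟩)
          (Real.one_le_rpow hx1.le (by norm_num)) hyx)
        (sparse_int (by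
          obtain ⟨c, γ, hγ, hc, hz⟩ := hx
          exact ⟨c, γ, hγ, fun i => (hc i).trans (pow_le_int' hκ (min_le_left _ _) x), hz⟩)
          (Real.one_le_rpow hx1.le (by norm_num)) (by
            rw [hsq]
            nlinarith))
        (by exact_mod_cast hx0) (Or.inl (by
          have hxC : (x : ℂ) ≠ 0 := by exact_mod_cast hx0
          have e1 : (x : ℂ) - ((y : ℂ) / (x : ℂ)) ^ 2 =
              -(((y ^ 2 - x ^ 3 : ℤ) : ℂ) / (x : ℂ) ^ 2) := by
            push_cast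
            field_simp
            ring
          rw [e1, norm_neg, norm_div, norm_pow, Complex.norm_intCast, Complex.norm_intCast]
          have e2 : |(x : ℝ)| ^ (1 / 4 - 1 : ℝ) = |(x : ℝ)| ^ (-(3 / 4) : ℝ) := by norm_num
          rw [e2]
          have e3 : |(x : ℝ)| / |(x : ℝ)| ^ 2 = |(x : ℝ)| ^ (-1 : ℝ) := by
            rw [Real.rpow_neg_one]
            field_simp
          calc |((y ^ 2 - x ^ 3 : ℤ) : ℝ)| / |(x : ℝ)| ^ 2 ≤ |(x : ℝ)| / |(x : ℝ)| ^ 2 :=
                div_le_div_of_nonneg_right hcase.le (by positivity)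
            _ = |(x : ℝ)| ^ (-1 : ℝ) := e3
            _ ≤ |(x : ℝ)| ^ (-(3 / 4) : ℝ) :=
                Real.rpow_le_rpow_of_exponent_le hx1.le (by norm_num))) hne
      exact key.trans (by
        have := (le_max_left C1 C2).trans (le_max_left (max C1 C2) 0)
        linarith)
  · have key := hC2 x y (hxy.imp (hdom x _) (hdom y _)) hne
    exact key.trans (by
      have := (le_max_right C1 C2).trans (le_max_left (max C1 C2) 0)
      linarith)

end Pool.Agent.Helper77.JN
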