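import Pool.Agent.Helper77.JN.Cont

/-!
Project JN, containment: the uniform theorem implies the hand-in NearUnits.
-/

set_option autoImplicit false

namespace Pool.Agent.Helper77.JN

open Finset Pool.Agent.Helper71.JN

/-- nonzero integers all of whose prime factors lie in `S` -/
def SNum (S : Finset ℕ) (u : ℤ) : Prop := u ≠ 0 ∧ ∀ q : ℕ, q.Prime → (q : ℤ) ∣ u → q ∈ S

theorem snum_nat {S : Finset ℕ} {u : ℤ} (h : SNum S u) :
    |(u : ℝ)| = ∏ p ∈ S.filter Nat.Prime, (p : ℝ) ^ (u.natAbs.factorization p) := by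
  have h0 : u.natAbs ≠ 0 := Int.natAbs_ne_zero.2 h.1
  have h1 : u.natAbs.factorization.support ⊆ S.filter Nat.Prime := by
    intro p hp
    rw [Nat.support_factorization, Nat.mem_primeFactors] at hp
    exact Finset.mem_filter.2 ⟨h.2 p hp.1 (Int.natCast_dvd.2 hp.2.1), hp.1⟩
  have h2 := Nat.prod_factorization_pow_eq_self h0
  rw [Finsupp.prod_of_support_subset _ h1 _ (fun p _ => pow_zero p)] at h2
  have h3 : |(u : ℝ)| = (u.natAbs : ℝ) := by
    rw [Nat.cast_natAbs, Int.cast_abs]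
  rw [h3]
  conv_lhs => rw [← h2]
  push_cast
  rfl

theorem snum_exp {S : Finset ℕ} {u : ℤ} (h : SNum S u) (p : ℕ) :
    (u.natAbs.factorization p : ℝ) * Real.log 2 ≤ Real.log |(u : ℝ)| := by
  have h0 : u.natAbs ≠ 0 := Int.natAbs_ne_zero.2 h.1
  have h3 : |(u : ℝ)| = (u.natAbs : ℝ) := by
    rw [Nat.cast_natAbs, Int.cast_abs]
  rw [h3]
  by_cases hp : p.Prime
  · have h1 : 2 ^ (u.natAbs.factorization p) ≤ u.natAbs :=
      (Nat.pow_le_pow_left hp.two_le _).trans (Nat.ordProj_le p h0)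
    have h2 : (2 : ℝ) ^ (u.natAbs.factorization p) ≤ (u.natAbs : ℝ) := by exact_mod_cast h1
    have h4 := Real.log_le_log (by positivity) h2
    rwa [Real.log_pow] at h4
  · rw [Nat.factorization_eq_zero_of_not_prime _ hp, Nat.cast_zero, zero_mul]
    exact Real.log_nonneg (by exact_mod_cast Nat.one_le_iff_ne_zero.2 h0)

/-- the generators `λ`, `-1`, `p` -/
noncomputable def gen (S : Finset ℕ) (lam : ℝ) : Option (Option (S.filter Nat.Prime)) → ℂ
  | none => (lam : ℂ)
  | some none => -1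
  | some (some p) => ((p : ℕ) : ℂ)

/-- the exponents of `λ u / v` -/
noncomputable def expo (S : Finset ℕ) (u v : ℤ) : Option (Option (S.filter Nat.Prime)) → ℤ
  | none => 1
  | some none => if 0 ≤ u * v then 0 else 1
  | some (some p) => (u.natAbs.factorization p : ℤ) - (v.natAbs.factorization p : ℤ)

theorem gen_prod {S : Finset ℕ} {lam : ℝ} {u v : ℤ} (hu : SNum S u) (hv : SNum S v) :
    ∏ i, gen S lam i ^ expo S u v i = ((lam * (u / v) : ℝ) : ℂ) := by
  classical
  have hv0 : (v : ℝ) ≠ 0 := by exact_mod_cast hv.1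
  rw [Fintype.prod_option, Fintype.prod_option]
  have e1 : ∏ p : (S.filter Nat.Prime), gen S lam (some (some p)) ^ expo S u v (some (some p))
      = ((|(u : ℝ)| / |(v : ℝ)| : ℝ) : ℂ) := by
    have e5 : ∀ p : (S.filter Nat.Prime), gen S lam (some (some p)) ^ expo S u v (some (some p))
        = ((p : ℕ) : ℂ) ^ (u.natAbs.factorization p) / ((p : ℕ) : ℂ) ^ (v.natAbs.factorization p) := by
      intro p
      have hp0 : ((p : ℕ) : ℂ) ≠ 0 := by
        exact_mod_cast (Finset.mem_filter.1 p.2).2.ne_zero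
      have e2 : gen S lam (some (some p)) ^ expo S u v (some (some p)) = ((p : ℕ) : ℂ) ^
          ((u.natAbs.factorization p : ℤ) - (v.natAbs.factorization p : ℤ)) := rfl
      rw [e2, zpow_sub₀ hp0, zpow_natCast, zpow_natCast]
    rw [Finset.prod_congr rfl fun p _ => e5 p,
      Finset.prod_coe_sort (S.filter Nat.Prime) (fun p : ℕ => (p : ℂ) ^ (u.natAbs.factorization p) /
        (p : ℂ) ^ (v.natAbs.factorization p)), Finset.prod_div_distrib, snum_nat hu, snum_nat hv]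
    push_cast
    rfl
  rw [e1]
  have e3 : gen S lam none ^ expo S u v none = (lam : ℂ) ^ (1 : ℤ) := rfl
  have e4 : gen S lam (some none) ^ expo S u v (some none) =
    (-1 : ℂ) ^ (if 0 ≤ u * v then (0 : ℤ) else 1) := rfl
  rw [e3, e4]
  have huv : (u : ℝ) / v = (u * v : ℤ) / (v * v : ℝ) := by
    push_cast
    field_simp
  have huv' : |(u : ℝ)| / |(v : ℝ)| = |((u * v : ℤ) : ℝ)| / (v * v : ℝ) := by
    push_cast
    rw [abs_mul, ← abs_mul_abs_self (v : ℝ)]
    have : |(v : ℝ)| ≠ 0 := abs_ne_zero.2 hv0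
    field_simp
  rw [zpow_one]
  split_ifs with h
  · rw [zpow_zero, one_mul, huv, huv', abs_of_nonneg (by exact_mod_cast h)]
    push_cast
    ring
  · push Not at h
    rw [zpow_one, huv, huv', abs_of_neg (by exact_mod_cast h)]
    push_cast
    ring

theorem near_of_units (S : Finset ℕ) (lam B : ℝ) (hlam : lam ≠ 0) :
    ∃ (k : ℕ) (g : Fin k → ℂ) (B' : ℝ),
      (IsAlgebraic ℚ lam → ∀ l, g l ≠ 0 ∧ IsAlgebraic ℚ (g l)) ∧
      ∀ (κ δ θ : ℝ) (n u v : ℤ), θ ≤ 1 → 2 ≤ |(n : ℝ)| → SNum S u → SNum S v →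
        |(v : ℝ)| ≤ |(n : ℝ)| ^ B → |(n : ℝ) - lam * (u / v)| ≤ |(n : ℝ)| ^ θ →
        Near g 0 δ B' κ θ n := by
  classical
  set e := Fintype.equivFin (Option (Option (S.filter Nat.Prime))) with he
  have hl2 : 0 < Real.log 2 := Real.log_pos (by norm_num)
  refine ⟨_, fun l => gen S lam (e.symm l),
    (3 + 2 * |B| + |Real.log (|lam|)| / Real.log 2) / Real.log 2, ?_, ?_⟩
  · intro halg l
    beta_reduce
    generalize e.symm l = i
    rcases i with _ | _ | p
    · refine ⟨by simpa [gen] using hlam, ?_⟩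
      show IsAlgebraic ℚ ((lam : ℝ) : ℂ)
      exact halg.algebraMap
    · exact ⟨by simp [gen], (isAlgebraic_one (R := ℚ) (A := ℂ)).neg⟩
    · refine ⟨?_, isAlgebraic_natCast (R := ℚ) (A := ℂ) (p : ℕ)⟩
      show ((p : ℕ) : ℂ) ≠ 0
      exact_mod_cast (Finset.mem_filter.1 p.2).2.ne_zero
  · intro κ δ θ n u v hθ hn hu hv hvB hnear
    have hn0 : 0 < |(n : ℝ)| := by linarith
    have hln : Real.log 2 ≤ Real.log |(n : ℝ)| := Real.log_le_log (by norm_num) hn
    have hlnp : 0 < Real.log |(n : ℝ)| := by linarith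
    have hv1 : 0 < |(v : ℝ)| := abs_pos.2 (by exact_mod_cast hv.1)
    have hu1 : 0 < |(u : ℝ)| := abs_pos.2 (by exact_mod_cast hu.1)
    have hlam1 : 0 < |lam| := abs_pos.2 hlam
    have hlv : Real.log |(v : ℝ)| ≤ |B| * Real.log |(n : ℝ)| := by
      calc Real.log |(v : ℝ)| ≤ Real.log (|(n : ℝ)| ^ B) := Real.log_le_log hv1 hvB
        _ = B * Real.log |(n : ℝ)| := Real.log_rpow hn0 B
        _ ≤ |B| * Real.log |(n : ℝ)| := mul_le_mul_of_nonneg_right (le_abs_self B) hlnp.le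
    have hlu : Real.log |(u : ℝ)| ≤
        (2 + |B| + |Real.log (|lam|)| / Real.log 2) * Real.log |(n : ℝ)| := by
      have h1 : |lam * ((u : ℝ) / v)| ≤ 2 * |(n : ℝ)| := by
        have h2 : |(n : ℝ)| ^ θ ≤ |(n : ℝ)| := by
          calc |(n : ℝ)| ^ θ ≤ |(n : ℝ)| ^ (1 : ℝ) :=
                Real.rpow_le_rpow_of_exponent_le (by linarith) hθ
            _ = |(n : ℝ)| := Real.rpow_one _
        have h3 : |lam * ((u : ℝ) / v)| ≤ |(n : ℝ) - lam * (u / v)| + |(n : ℝ)| := by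
          have := abs_sub_abs_le_abs_sub (lam * ((u : ℝ) / v)) (n : ℝ)
          rw [abs_sub_comm] at this
          linarith
        linarith
      have h4 : |lam| * |(u : ℝ)| ≤ 2 * |(n : ℝ)| * |(v : ℝ)| := by
        have e1 : |lam * ((u : ℝ) / v)| * |(v : ℝ)| = |lam| * |(u : ℝ)| := by
          rw [abs_mul, abs_div]
          field_simp
        rw [← e1]
        exact mul_le_mul_of_nonneg_right h1 hv1.le
      have h5 := Real.log_le_log (by positivity) h4
      rw [Real.log_mul hlam1.ne' hu1.ne', Real.log_mul (by positivity) hv1.ne',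
        Real.log_mul (by norm_num) hn0.ne'] at h5
      have h6 : -Real.log |lam| ≤ |Real.log (|lam|)| / Real.log 2 * Real.log |(n : ℝ)| := by
        calc -Real.log |lam| ≤ |Real.log (|lam|)| := neg_le_abs _
          _ = |Real.log (|lam|)| / Real.log 2 * Real.log 2 := by field_simp
          _ ≤ |Real.log (|lam|)| / Real.log 2 * Real.log |(n : ℝ)| :=
              mul_le_mul_of_nonneg_left hln (by positivity)
      nlinarith
    have hprod : ∏ l, gen S lam (e.symm l) ^ expo S u v (e.symm l) =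
        ((lam * (u / v) : ℝ) : ℂ) := by
      rw [← gen_prod hu hv]
      exact Equiv.prod_comp e.symm fun i => gen S lam i ^ expo S u v i
    refine ⟨fun l => expo S u v (e.symm l), fun i => i.elim0, fun i => i.elim0,
      fun i => i.elim0, fun i => i.elim0, ?_, Or.inr ⟨fun l => ?_, fun i => i.elim0⟩⟩
    · rw [hprod, Finset.univ_eq_empty, Finset.sum_empty, add_zero]
      have : (n : ℂ) - ((lam * (u / v) : ℝ) : ℂ) = (((n : ℝ) - lam * (u / v) : ℝ) : ℂ) := by
        push_cast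
        ring
      rw [this, Complex.norm_real]
      exact hnear
    · have hB1 : (1 : ℝ) ≤ (3 + 2 * |B| + |Real.log (|lam|)| / Real.log 2) / Real.log 2 *
          Real.log |(n : ℝ)| := by
        rw [div_mul_eq_mul_div, le_div_iff₀ hl2]
        have h7 : 0 ≤ 2 * |B| + |Real.log (|lam|)| / Real.log 2 := by positivity
        nlinarith
      beta_reduce
      generalize e.symm l = i
      rcases i with _ | _ | p
      · show |((1 : ℤ) : ℝ)| ≤ _
        rw [Int.cast_one, abs_one]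
        exact hB1
      · show |(((if 0 ≤ u * v then (0 : ℤ) else 1) : ℤ) : ℝ)| ≤ _
        split_ifs
        · rw [Int.cast_zero, abs_zero]
          linarith
        · rw [Int.cast_one, abs_one]
          exact hB1
      · show |(((u.natAbs.factorization p : ℤ) - (v.natAbs.factorization p : ℤ) : ℤ) : ℝ)| ≤ _
        rw [div_mul_eq_mul_div, le_div_iff₀ hl2]
        have h8 := snum_exp hu p
        have h9 := snum_exp hv p
        have h10 : |(((u.natAbs.factorization p : ℤ) - (v.natAbs.factorization p : ℤ) : ℤ) : ℝ)| ≤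
            (u.natAbs.factorization p : ℝ) + (v.natAbs.factorization p : ℝ) := by
          push_cast
          rw [abs_le]
          constructor <;> nlinarith [(Nat.cast_nonneg (u.natAbs.factorization p) : (0 : ℝ) ≤ _),
            (Nat.cast_nonneg (v.natAbs.factorization p) : (0 : ℝ) ≤ _)]
        calc |(((u.natAbs.factorization p : ℤ) - (v.natAbs.factorization p : ℤ) : ℤ) : ℝ)| *
              Real.log 2 ≤ ((u.natAbs.factorization p : ℝ) + (v.natAbs.factorization p : ℝ)) *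
              Real.log 2 := mul_le_mul_of_nonneg_right h10 hl2.le
          _ ≤ (3 + 2 * |B| + |Real.log (|lam|)| / Real.log 2) * Real.log |(n : ℝ)| := by
              nlinarith

theorem rpow_lt_self {a b : ℝ} (ha : 2 ≤ a) (hb : b ≤ 1 / 2) : a ^ b < a := by
  calc a ^ b ≤ a ^ (1 / 2 : ℝ) := Real.rpow_le_rpow_of_exponent_le (by linarith) hb
    _ < a ^ (1 : ℝ) := Real.rpow_lt_rpow_of_exponent_lt (by linarith) (by norm_num)
    _ = a := Real.rpow_one a

/-- the uniform theorem contains NearUnits -/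
theorem nearunits_of_finu (h : ST_FINU) (S : Finset ℕ) (lam ε η B : ℝ)
    (hlam : IsAlgebraic ℚ lam) (hε : 0 < ε) (hη : 0 < η) :
    ∃ C : ℝ, ∀ x y u v : ℤ, SNum S u → SNum S v →
      (|(v : ℝ)| ≤ |(x : ℝ)| ^ B ∧ |(x : ℝ) - lam * (u / v)| ≤ |(x : ℝ)| ^ (1 / 4 - η) ∨
       |(v : ℝ)| ≤ |(y : ℝ)| ^ B ∧ |(y : ℝ) - lam * (u / v)| ≤ |(y : ℝ)| ^ (1 / 2 - η)) →
      y ^ 2 ≠ x ^ 3 →
      Real.log |(x : ℝ)| ≤ (2 + ε) * Real.log |((y ^ 2 - x ^ 3 : ℤ) : ℝ)| + C := by
  classical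
  have key : ∃ C : ℝ, 0 ≤ C ∧ ∀ x y u v : ℤ, 2 ≤ |(x : ℝ)| → 2 ≤ |(y : ℝ)| → SNum S u →
      SNum S v →
      (|(v : ℝ)| ≤ |(x : ℝ)| ^ B ∧ |(x : ℝ) - lam * (u / v)| ≤ |(x : ℝ)| ^ (1 / 4 - η) ∨
       |(v : ℝ)| ≤ |(y : ℝ)| ^ B ∧ |(y : ℝ) - lam * (u / v)| ≤ |(y : ℝ)| ^ (1 / 2 - η)) →
      y ^ 2 ≠ x ^ 3 →
      Real.log |(x : ℝ)| ≤ (2 + ε) * Real.log |((y ^ 2 - x ^ 3 : ℤ) : ℝ)| + C := by
    by_cases hl : lam = 0
    · refine ⟨0, le_rfl, fun x y u v hx hy _ _ hc _ => ?_⟩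
      exfalso
      rw [hl] at hc
      simp only [zero_mul, sub_zero] at hc
      rcases hc with hc | hc
      · exact absurd hc.2 (not_le.2 (rpow_lt_self hx (by linarith)))
      · exact absurd hc.2 (not_le.2 (rpow_lt_self hy (by linarith)))
    · obtain ⟨k, g, B', hg, hnear⟩ := near_of_units S lam B hl
      obtain ⟨κ, -, C, hC⟩ := finj_of_finu h k g 0 ε (1 / 2) η B' (hg hlam) hε (by norm_num)
        (by norm_num) hη
      refine ⟨max C 0, le_max_right _ _, fun x y u v hx hy hu hv hc hne => ?_⟩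
      refine (hC x y ?_ hne).trans (by linarith [le_max_left C 0])
      rcases hc with hc | hc
      · exact Or.inl (hnear κ (1 / 2) _ x u v (by linarith) hx hu hv hc.1 hc.2)
      · exact Or.inr (hnear κ (1 / 2) _ y u v (by linarith) hy hu hv hc.1 hc.2)
  obtain ⟨C, hC0, hC⟩ := key
  refine ⟨C, fun x y u v hu hv hc hne => ?_⟩
  have hd0 : (y ^ 2 - x ^ 3 : ℤ) ≠ 0 := sub_ne_zero.2 hne
  have hd1 : (1 : ℝ) ≤ |((y ^ 2 - x ^ 3 : ℤ) : ℝ)| := by
    exact_mod_cast Int.one_le_abs hd0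
  have hld : 0 ≤ Real.log |((y ^ 2 - x ^ 3 : ℤ) : ℝ)| := Real.log_nonneg hd1
  by_cases hcase : |(x : ℝ)| ≤ |((y ^ 2 - x ^ 3 : ℤ) : ℝ)|
  · have h1 : Real.log |(x : ℝ)| ≤ Real.log |((y ^ 2 - x ^ 3 : ℤ) : ℝ)| := by
      rcases eq_or_ne x 0 with h0 | h0
      · subst h0
        rw [Int.cast_zero, abs_zero, Real.log_zero]
        exact hld
      · exact Real.log_le_log (abs_pos.2 (by exact_mod_cast h0)) hcase
    nlinarith
  · push Not at hcase
    have hx1 : 1 < |(x : ℝ)| := lt_of_le_of_lt hd1 hcase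
    have hx2 : (2 : ℝ) ≤ |(x : ℝ)| := by
      have : (1 : ℤ) < |x| := by exact_mod_cast hx1
      exact_mod_cast (this : (2 : ℤ) ≤ |x|)
    have e1 : ((y ^ 2 - x ^ 3 : ℤ) : ℝ) = (y : ℝ) ^ 2 - (x : ℝ) ^ 3 := by push_cast; ring
    have h2 := abs_lt.1 hcase
    rw [e1] at h2
    have hxp : 0 < (x : ℝ) := by
      by_contra hneg
      push Not at hneg
      rw [abs_of_nonpos hneg] at h2 hx2
      nlinarith [sq_nonneg (y : ℝ), sq_nonneg (x : ℝ), h2.2]
    rw [abs_of_pos hxp] at h2 hx2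
    have hy2 : (2 : ℝ) ≤ |(y : ℝ)| := by
      by_contra hy
      push Not at hy
      have h3 : (y : ℝ) ^ 2 < 4 := by
        rw [← sq_abs]
        nlinarith [abs_nonneg (y : ℝ)]
      nlinarith [h2.1, sq_nonneg ((x : ℝ) - 2)]
    exact hC x y u v (by rw [abs_of_pos hxp]; exact hx2) hy2 hu hv hc hne

end Pool.Agent.Helper77.JN
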