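import Pool.Agent.Helper77.JN.SUnitFG

/-!
Project JN, containment: integral coordinates of algebraic integers.
-/

set_option autoImplicit false

namespace Pool.Agent.Helper77.JN

open NumberField Pool.Agent.Helper77.SUBK

theorem house_le {M : Type} [Field M] [NumberField M] {z : M} {B : ℝ}
    (h : ∀ φ : M →+* ℂ, ‖φ z‖ ≤ B) : house z ≤ B := by
  have hB : 0 ≤ B := by
    obtain ⟨φ⟩ : Nonempty (M →+* ℂ) := inferInstance
    exact (norm_nonneg _).trans (h φ)
  rw [house, canonicalEmbedding.norm_le_iff]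
  exact h

/-- coordinates of algebraic integers -/
theorem int_coord (M : Type) [Field M] [NumberField M] :
    ∃ (C : ℝ) (ω : (M →+* ℂ) → M), 0 ≤ C ∧ (∀ k, ω k ≠ 0) ∧
      ∀ (z : M) (B : ℝ), IsIntegral ℤ z → (∀ φ : M →+* ℂ, ‖φ z‖ ≤ B) →
        ∃ a : (M →+* ℂ) → ℤ, z = ∑ k, (a k : M) * ω k ∧ ∀ k, |(a k : ℝ)| ≤ C * B := by
  classical
  have h0 : ∃ C : ℝ, ∀ (α : 𝓞 M) (i : M →+* ℂ),
      ‖(((integralBasis M).reindex (equivReindex M).symm).repr α i : ℂ)‖ ≤
        C * house (algebraMap (𝓞 M) M α) :=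
    ⟨_, fun α i => house.basis_repr_norm_le_const_mul_house M α i⟩
  obtain ⟨C, hC⟩ := h0
  refine ⟨max C 0, fun k => (integralBasis M).reindex (equivReindex M).symm k, le_max_right _ _,
    fun k => Module.Basis.ne_zero _ k, ?_⟩
  intro z B hz hB
  have hB0 : 0 ≤ B := by
    obtain ⟨φ⟩ : Nonempty (M →+* ℂ) := inferInstance
    exact (norm_nonneg _).trans (hB φ)
  have e1 : ∀ k : M →+* ℂ, ((integralBasis M).reindex (equivReindex M).symm).repr z k
      = (((RingOfIntegers.basis M).repr (⟨z, hz⟩ : 𝓞 M) (equivReindex M k) : ℤ) : ℚ) := by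
    intro k
    rw [Module.Basis.repr_reindex_apply, Equiv.symm_symm]
    have := integralBasis_repr_apply M (⟨z, hz⟩ : 𝓞 M) (equivReindex M k)
    simpa using this
  refine ⟨fun k => (RingOfIntegers.basis M).repr (⟨z, hz⟩ : 𝓞 M) (equivReindex M k), ?_, ?_⟩
  · refine (((integralBasis M).reindex (equivReindex M).symm).sum_repr z).symm.trans ?_
    refine Finset.sum_congr rfl fun k _ => ?_
    rw [e1 k, Algebra.smul_def, map_intCast]
  · intro k
    have h1 := hC (⟨z, hz⟩ : 𝓞 M) k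
    have h2 : ‖(((integralBasis M).reindex (equivReindex M).symm).repr z k : ℂ)‖ ≤
        C * house z := h1
    rw [e1 k] at h2
    have h3 : ‖((((RingOfIntegers.basis M).repr (⟨z, hz⟩ : 𝓞 M) (equivReindex M k) : ℤ) : ℚ) : ℂ)‖
        = |(((RingOfIntegers.basis M).repr (⟨z, hz⟩ : 𝓞 M) (equivReindex M k) : ℤ) : ℝ)| := by
      rw [Rat.cast_intCast, Complex.norm_intCast]
    rw [h3] at h2
    refine h2.trans ?_
    calc C * house z ≤ max C 0 * house z :=
          mul_le_mul_of_nonneg_right (le_max_left _ _) (house_nonneg z)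
      _ ≤ max C 0 * B := mul_le_mul_of_nonneg_left (house_le hB) (le_max_right _ _)

end Pool.Agent.Helper77.JN
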