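import Pool.Agent.Helper71.JN.SheetD

/-!
Project JN, containment: the group of `S`-units of a number field is finitely generated.
-/

set_option autoImplicit false

namespace Pool.Agent.Helper77.JN

open NumberField IsDedekindDomain Pool.Agent.Helper77.SUBK

/-- Dirichlet's theorem for `S`-units, `S` a finite set of maximal ideals -/
theorem unit_fg (M : Type) [Field M] [NumberField M] (T : Set (HeightOneSpectrum (𝓞 M)))
    (hT : T.Finite) : (T.unit M).FG := by
  classical
  have : Finite T := hT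
  set L : Additive Mˣ →ₗ[ℤ] (T → ℤ) :=
    LinearMap.pi fun v => (MonoidHom.toAdditiveLeft
      (v.1.valuationOfNeZero : Mˣ →* Multiplicative ℤ)).toIntLinearMap with hL
  set φ : Additive (𝓞 M)ˣ →ₗ[ℤ] Additive Mˣ :=
    (MonoidHom.toAdditive (Units.map (algebraMap (𝓞 M) M : 𝓞 M →* M))).toIntLinearMap with hφ
  rw [Subgroup.fg_iff_add_fg, ← AddSubgroup.toIntSubmodule_toAddSubgroup (T.unit M).toAddSubgroup,
    ← Submodule.fg_iff_addSubgroup_fg]
  refine Submodule.fg_of_fg_map_of_fg_inf_ker L (IsNoetherian.noetherian _) ?_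
  have hN : IsNoetherian ℤ (LinearMap.range φ) := by
    exact isNoetherian_of_isNoetherianRing_of_finite ℤ (LinearMap.range φ)
  refine isNoetherian_submodule.1 hN _ ?_
  rintro a ⟨ha1, ha2⟩
  have h1 : ∀ v : HeightOneSpectrum (𝓞 M), v.valuation M ((Additive.toMul a : Mˣ) : M) = 1 := by
    intro v
    by_cases hv : v ∈ T
    · have h2 := congrFun (LinearMap.mem_ker.1 ha2) ⟨v, hv⟩
      have h3 : v.valuationOfNeZero (Additive.toMul a : Mˣ) = 1 := by
        simpa [hL] using h2
      rw [← HeightOneSpectrum.valuationOfNeZero_eq, h3]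
      rfl
    · exact ha1 v hv
  obtain ⟨r, hr⟩ := HeightOneSpectrum.mem_integers_of_valuation_le_one M
    ((Additive.toMul a : Mˣ) : M) fun v => (h1 v).le
  obtain ⟨s, hs⟩ := HeightOneSpectrum.mem_integers_of_valuation_le_one M
    (((Additive.toMul a : Mˣ) : M)⁻¹) fun v => by rw [map_inv₀, h1 v, inv_one]
  have hrs : r * s = 1 := by
    apply FaithfulSMul.algebraMap_injective (𝓞 M) M
    rw [map_mul, hr, hs, map_one]
    exact mul_inv_cancel₀ (Units.ne_zero _)
  refine ⟨Additive.ofMul (Units.mk r s hrs (by rw [mul_comm]; exact hrs)), ?_⟩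
  apply Additive.toMul.injective
  apply Units.ext
  exact hr

/-- the `S`-units of `M` lie in a finitely generated group -/
theorem sv_fg (M : Type) [Field M] [NumberField M] (S : Finset ℕ) (hS : ∀ p ∈ S, p.Prime) :
    ∃ U : Subgroup Mˣ, U.FG ∧ ∀ (u : M) (h : SV S u), Units.mk0 u h.1 ∈ U := by
  classical
  have hN0 : (∏ p ∈ S, p) ≠ 0 := Finset.prod_ne_zero_iff.2 fun p hp => (hS p hp).ne_zero
  set T : Set (HeightOneSpectrum (𝓞 M)) :=
    {v | v.asIdeal ∣ Ideal.span {((∏ p ∈ S, p : ℕ) : 𝓞 M)}} with hT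
  have hTf : T.Finite := Ideal.finite_factors (by
    rw [Ne, Ideal.zero_eq_bot, Ideal.span_singleton_eq_bot]
    exact_mod_cast hN0)
  have key : ∀ v : HeightOneSpectrum (𝓞 M), v ∉ T → ∀ z : M, SI S z → v.valuation M z ≤ 1 := by
    rintro v hv z ⟨n, ⟨hn0, hn⟩, hz⟩
    have hnv : ((n : ℕ) : 𝓞 M) ∉ v.asIdeal := by
      intro hnm
      have hp : ∃ p ∈ n.primeFactorsList, ((p : ℕ) : 𝓞 M) ∈ v.asIdeal := by
        have e : ((n.primeFactorsList.map (fun p : ℕ => (p : 𝓞 M))).prod) ∈ v.asIdeal := by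
          have := Nat.prod_primeFactorsList hn0
          rw [← Nat.cast_list_prod, this]
          exact hnm
        have := (v.isPrime.multiset_prod_mem_iff_exists_mem
          ((n.primeFactorsList.map (fun p : ℕ => (p : 𝓞 M))) : Multiset (𝓞 M))).1 (by
            simpa using e)
        obtain ⟨q, hq, hqv⟩ := this
        simp only [Multiset.mem_coe, List.mem_map] at hq
        obtain ⟨p, hp, rfl⟩ := hq
        exact ⟨p, hp, hqv⟩
      obtain ⟨p, hp, hpv⟩ := hp
      have hpS : p ∈ S := hn p (Nat.prime_of_mem_primeFactorsList hp)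
        (Nat.dvd_of_mem_primeFactorsList hp)
      apply hv
      rw [hT, Set.mem_ofPred_eq, Ideal.dvd_span_singleton]
      obtain ⟨m, hm⟩ := Finset.dvd_prod_of_mem (fun p : ℕ => p) hpS
      rw [hm]
      push_cast
      exact v.asIdeal.mul_mem_right _ hpv
    have h1 : v.valuation M ((n : ℕ) : M) = 1 := by
      have := (HeightOneSpectrum.valuation_eq_one_iff_notMem (K := M) (v := v)
        (r := ((n : ℕ) : 𝓞 M))).2 hnv
      simpa using this
    have h2 : v.valuation M ((n : M) * z) ≤ 1 := by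
      have := v.valuation_le_one (K := M) (⟨(n : M) * z, hz⟩ : 𝓞 M)
      exact this
    rwa [map_mul, h1, one_mul] at h2
  refine ⟨T.unit M, unit_fg M T hTf, fun u hu v hv => ?_⟩
  have h1 := key v hv u hu.2.1
  have h2 := key v hv u⁻¹ hu.2.2
  have h3 : v.valuation M u * v.valuation M u⁻¹ = 1 := by
    rw [← map_mul, mul_inv_cancel₀ hu.1, map_one]
  refine le_antisymm h1 ?_
  show 1 ≤ v.valuation M u
  rw [← h3]
  calc v.valuation M u * v.valuation M u⁻¹ ≤ v.valuation M u * 1 := by gcongr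
    _ = v.valuation M u := mul_one _

end Pool.Agent.Helper77.JN
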