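import Pool.Agent.Helper77.JN.IntCoord

/-!
Project JN, containment: sums of moderate `S`-units with slow coefficients are quotients of sparse
numbers for a finitely generated group.
-/

set_option autoImplicit false

namespace Pool.Agent.Helper77.JN

open Polynomial Filter Finset Pool.Agent.Helper70.SUB Pool.Agent.Helper77.SUBK
  Pool.Agent.Helper70.SUBL Pool.Agent.Helper70.SUBW Pool.Agent.Helper71.JN

theorem fg_map {G G' : Type} [Group G] [Group G'] (f : G →* G') {U : Subgroup G} (hU : U.FG) :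
    (U.map f).FG := by
  classical
  obtain ⟨T, hT⟩ := hU
  refine ⟨T.image f, ?_⟩
  rw [← hT, MonoidHom.map_closure, Finset.coe_image]

theorem conj_root {M : Type} [Field M] [NumberField M] (ψ : M →+* ℂ) (w : M) (z' : ℂ)
    (h : aeval z' (minpoly ℚ (ψ w)) = 0) : ∃ φ : M →+* ℂ, φ w = z' := by
  have e1 : minpoly ℚ (ψ w) = minpoly ℚ w := by
    have := minpoly.algHom_eq (RingHom.toRatAlgHom ψ) ψ.injective w
    simpa using this
  have hint : IsIntegral ℚ w := Algebra.IsIntegral.isIntegral w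
  have h1 : z' ∈ (minpoly ℚ w).rootSet ℂ := by
    rw [mem_rootSet]
    exact ⟨minpoly.ne_zero hint, by rw [← e1]; exact h⟩
  rw [← NumberField.Embeddings.range_eval_eq_rootSet_minpoly M ℂ w] at h1
  obtain ⟨φ, hφ⟩ := h1
  exact ⟨φ, hφ⟩

/-- sizes of `D ∑ c i u i` -/
theorem size_lem (hGALA : ST_GALA) (hDEN : ST_DEN) {M : Type} [Field M] [NumberField M]
    [IsGalois ℚ M] {S : Finset ℕ} (P : PF S M) (hS : ∀ p ∈ S, p.Prime) {t : ℕ} {D : ℕ}
    (c u : Fin t → M) {K Q : ℝ} (hK : 1 ≤ K) (hQ : 1 ≤ Q) (hDK : (D : ℝ) ≤ K)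
    (hc : ∀ i, IsIntegral ℤ ((D : M) * c i))
    (hcK : ∀ i, ∀ σ : M ≃ₐ[ℚ] M, P.nv none (σ (c i)) ≤ K) (hu : ∀ i, SV S (u i))
    (huQ : ∀ i, HB P Q (u i)) :
    (∃ N : ℕ, N ≠ 0 ∧ (N : ℝ) ≤ (∏ p ∈ S, (p : ℝ)) * Q ^ S.card ∧
      IsIntegral ℤ ((N : M) * ((D : M) * ∑ i, c i * u i))) ∧
    ∀ φ : M →+* ℂ, ‖φ ((D : M) * ∑ i, c i * u i)‖ ≤ t * (K * K * Q) := by
  constructor
  · obtain ⟨n, hn, hnQ, hni⟩ := (hDEN M S P hS).1 Q hQ
    refine ⟨n, hn.1, hnQ, ?_⟩
    have e : (n : M) * ((D : M) * ∑ i, c i * u i) = ∑ i, ((D : M) * c i) * ((n : M) * u i) := by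
      rw [Finset.mul_sum, Finset.mul_sum]
      exact Finset.sum_congr rfl fun i _ => by ring
    rw [e]
    refine IsIntegral.sum _ fun i _ => (hc i).mul (hni _ (hu i).2.1 fun p hp σ => ?_)
    exact huQ i (some p) (by simp [plc, hp]) σ
  · intro φ
    obtain ⟨σ, hσ⟩ := (hGALA M S P hS).1 φ
    have hK0 : 0 ≤ K := by linarith
    rw [map_mul, map_sum, norm_mul, map_natCast, Complex.norm_natCast]
    calc (D : ℝ) * ‖∑ i, φ (c i * u i)‖ ≤ K * ∑ i : Fin t, K * Q := by
          refine mul_le_mul hDK ?_ (norm_nonneg _) hK0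
          refine (norm_sum_le _ _).trans (Finset.sum_le_sum fun i _ => ?_)
          rw [map_mul, norm_mul, hσ, hσ]
          refine mul_le_mul (hcK i σ) (huQ i none (by simp [plc]) σ) (P.nn _ _) hK0
      _ = t * (K * K * Q) := by
          rw [Finset.sum_const, Finset.card_univ, Fintype.card_fin, nsmul_eq_mul]
          ring

/-- moderate sums are quotients of sparse numbers -/
theorem sparse_of_spm (hSLW : ST_SLW) (hGALA : ST_GALA) (hDEN : ST_DEN) (M : Type) [Field M]
    [NumberField M] [IsGalois ℚ M] (S : Finset ℕ) (P : PF S M) (φ : Ultrafilter ℕ) (X : ℕ → ℝ)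
    (hS : ∀ p ∈ S, p.Prime) (hX : Tendsto X (φ : Filter ℕ) atTop) (R : ℕ → M)
    (hR : SpM P φ X R) :
    ∃ (Γ : Subgroup ℂˣ) (t : ℕ) (B : ℝ), Γ.FG ∧ (∀ γ ∈ Γ, IsAlgebraic ℚ ((γ : ℂˣ) : ℂ)) ∧
      ∀ κ : ℝ, 0 < κ → ∀ᶠ j in (φ : Filter ℕ), ∃ p q : ℂ, Sparse Γ t (X j ^ κ) (X j ^ B) p ∧
        Sparse Γ t (X j ^ κ) (X j ^ B) q ∧ q ≠ 0 ∧ p / q = P.emb (R j) := by
  classical
  obtain ⟨t0, c, u, hc, hu, hcu⟩ := hR
  obtain ⟨C, ω, hC0, hω0, hω⟩ := int_coord M
  obtain ⟨U, hUfg, hU⟩ := sv_fg M S hS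
  choose hSV A hA0 hA using hu
  obtain ⟨s1, s2, s3, s4, s5, s6, s7, s8, s9, s10, s11, s12, s13⟩ := hSLW M S P φ X hS hX
  set W : Subgroup Mˣ := U ⊔ Subgroup.closure (Set.range fun k => Units.mk0 (ω k) (hω0 k)) with hW
  have hWfg : W.FG := hUfg.sup ⟨Set.toFinset (Set.range fun k => Units.mk0 (ω k) (hω0 k)), by simp⟩
  set f : Mˣ →* ℂˣ := Units.map (P.emb : M →* ℂ) with hf
  set ι : Type := Option (Fin t0 × (M →+* ℂ)) with hι
  set e : ι ≃ Fin (Fintype.card ι) := Fintype.equivFin ι with he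
  set A' : ℝ := ∑ i, A i with hA'
  have hAle : ∀ i, A i ≤ A' := fun i =>
    Finset.single_le_sum (f := A) (fun k _ => (hA0 k).le) (Finset.mem_univ i)
  have hA'0 : 0 ≤ A' := Finset.sum_nonneg fun k _ => (hA0 k).le
  refine ⟨W.map f, Fintype.card ι, 1 + A' * (S.card + 1), fg_map f hWfg, ?_, ?_⟩
  · rintro γ ⟨m, -, rfl⟩
    have h1 : IsAlgebraic ℚ ((m : Mˣ) : M) := Algebra.IsAlgebraic.isAlgebraic _
    have h2 := h1.algHom (RingHom.toRatAlgHom P.emb)
    simpa [hf] using h2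
  · intro κ0 hκ0
    set κ : ℝ := min κ0 1 with hκd
    have hκ : 0 < κ := lt_min hκ0 one_pos
    have hκ1 : κ ≤ 1 := min_le_right _ _
    have hκκ0 : κ ≤ κ0 := min_le_left _ _
    have hX1 : ∀ᶠ j in (φ : Filter ℕ), 1 ≤ X j := hX.eventually_ge_atTop 1
    have hXC : ∀ᶠ j in (φ : Filter ℕ), C ≤ X j ^ (κ / 2) :=
      ((tendsto_rpow_atTop (by positivity : (0 : ℝ) < κ / 2)).comp hX).eventually_ge_atTop C
    have hXt : ∀ᶠ j in (φ : Filter ℕ), (t0 : ℝ) ≤ X j ^ (1 / 2 : ℝ) :=
      ((tendsto_rpow_atTop (by norm_num : (0 : ℝ) < 1 / 2)).comp hX).eventually_ge_atTop _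
    have hXS : ∀ᶠ j in (φ : Filter ℕ), (∏ p ∈ S, (p : ℝ)) ≤ X j := hX.eventually_ge_atTop _
    have hDall := s12 (Fin t0) Finset.univ c (fun i _ => hc i) (κ / 4) (by positivity)
    have hcall : ∀ᶠ j in (φ : Filter ℕ), ∀ i, ∀ σ : M ≃ₐ[ℚ] M,
        P.nv none (σ (c i j)) ≤ X j ^ (κ / 4) := by
      rw [Filter.eventually_all]
      intro i
      filter_upwards [hc i (κ / 4) (by positivity)] with j hj
      obtain ⟨D, -, -, -, h⟩ := hj
      exact h
    have hSVall : ∀ᶠ j in (φ : Filter ℕ), ∀ i, SV S (u i j) := Filter.eventually_all.2 hSV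
    have hAall : ∀ᶠ j in (φ : Filter ℕ), ∀ i, HB P (X j ^ A i) (u i j) :=
      Filter.eventually_all.2 hA
    filter_upwards [hX1, hXC, hXt, hXS, hDall, hcall, hSVall, hAall, hcu] with j h1 h2 h3 h4 h5 h6
      h7 h8 h9
    obtain ⟨D, hD0, hDX, hDi⟩ := h5
    have hX0 : 0 < X j := by linarith
    have hK : 1 ≤ X j ^ (κ / 4) := Real.one_le_rpow h1 (by positivity)
    have hQ : 1 ≤ X j ^ A' := Real.one_le_rpow h1 hA'0
    have huQ : ∀ i, HB P (X j ^ A') (u i j) := fun i v hv σ =>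
      (h8 i v hv σ).trans (Real.rpow_le_rpow_of_exponent_le h1 (hAle i))
    obtain ⟨⟨N, hN0, hNQ, hNi⟩, hsz⟩ := size_lem hGALA hDEN P hS (fun i => c i j)
      (fun i => u i j) hK hQ hDX (fun i => hDi i (Finset.mem_univ i)) h6 h7 huQ
    have hKK : X j ^ (κ / 4) * X j ^ (κ / 4) = X j ^ (κ / 2) := by
      rw [← Real.rpow_add hX0]
      congr 1
      ring
    -- integral coordinates
    have hcoord : ∀ i, ∃ a : (M →+* ℂ) → ℤ, (D : M) * c i j = ∑ k, (a k : M) * ω k ∧
        ∀ k, |(a k : ℝ)| ≤ C * (X j ^ (κ / 4) * X j ^ (κ / 4)) := by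
      intro i
      refine hω _ _ (hDi i (Finset.mem_univ i)) fun ψ => ?_
      obtain ⟨σ, hσ⟩ := (hGALA M S P hS).1 ψ
      rw [map_mul, norm_mul, map_natCast, Complex.norm_natCast, hσ]
      exact mul_le_mul hDX (h6 i σ) (P.nn _ _) (by positivity)
    choose a ha haC using hcoord
    have haX : ∀ i k, |(a i k : ℝ)| ≤ X j ^ κ := by
      intro i k
      refine (haC i k).trans ?_
      rw [hKK]
      calc C * X j ^ (κ / 2) ≤ X j ^ (κ / 2) * X j ^ (κ / 2) :=
            mul_le_mul_of_nonneg_right h2 (by positivity)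
        _ = X j ^ κ := by
            rw [← Real.rpow_add hX0]
            congr 1
            ring
    have hXκ : X j ^ κ ≤ X j ^ κ0 := Real.rpow_le_rpow_of_exponent_le h1 hκκ0
    have hDκ : (D : ℝ) ≤ X j ^ κ0 := hDX.trans
      ((Real.rpow_le_rpow_of_exponent_le h1 (by linarith)).trans hXκ)
    have hBig : X j ^ (1 : ℝ) ≤ X j ^ (1 + A' * (S.card + 1)) :=
      Real.rpow_le_rpow_of_exponent_le h1 (by
        have : 0 ≤ A' * (S.card + 1) := by positivity
        linarith)
    refine ⟨P.emb ((D : M) * R j), (D : ℂ), ⟨⟨fun n => (e.symm n).elim 0 fun ik => a ik.1 ik.2,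
      fun n => (e.symm n).elim 1 fun ik =>
        f (Units.mk0 (ω ik.2) (hω0 ik.2) * Units.mk0 (u ik.1 j) (h7 ik.1).1), ?_, ?_, ?_⟩, ?_, ?_⟩,
      ⟨⟨fun n => (e.symm n).elim (D : ℤ) fun _ => 0, fun _ => 1, ?_, ?_, ?_⟩, ?_, ?_⟩, ?_, ?_⟩
    · intro n
      beta_reduce
      generalize e.symm n = o
      rcases o with _ | ik
      · exact one_mem (W.map f)
      · refine Subgroup.mem_map_of_mem f (mul_mem ?_ ?_)
        · exact (le_sup_right : _ ≤ W) (Subgroup.subset_closure ⟨ik.2, rfl⟩)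
        · exact (le_sup_left : _ ≤ W) (hU _ (h7 ik.1))
    · intro n
      beta_reduce
      generalize e.symm n = o
      rcases o with _ | ik
      · simp only [Option.elim]
        rw [Int.cast_zero, abs_zero]
        positivity
      · exact (haX ik.1 ik.2).trans hXκ
    · rw [← Equiv.sum_comp e]
      simp only [Equiv.symm_apply_apply]
      rw [Fintype.sum_option, Fintype.sum_prod_type]
      simp only [Option.elim, Int.cast_zero, zero_mul, zero_add]
      rw [← h9, Finset.mul_sum, map_sum]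
      refine Finset.sum_congr rfl fun i _ => ?_
      rw [← mul_assoc, ha i, Finset.sum_mul, map_sum]
      refine Finset.sum_congr rfl fun k _ => ?_
      rw [hf, Units.coe_map, Units.val_mul, Units.val_mk0, Units.val_mk0, map_mul, map_mul,
        map_intCast, MonoidHom.coe_coe, map_mul]
      ring
    · refine ⟨N, hN0, ?_, ?_⟩
      · refine hNQ.trans ?_
        calc (∏ p ∈ S, (p : ℝ)) * (X j ^ A') ^ S.card ≤ X j * (X j ^ A') ^ S.card :=
              mul_le_mul_of_nonneg_right h4 (by positivity)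
          _ = X j ^ (1 + A' * S.card) := by
              rw [← Real.rpow_mul_natCast hX0.le, Real.rpow_add hX0, Real.rpow_one]
          _ ≤ X j ^ (1 + A' * (S.card + 1)) := Real.rpow_le_rpow_of_exponent_le h1 (by
              nlinarith)
      · have h10 := hNi.map (P.emb.toIntAlgHom)
        rw [h9] at h10
        simpa using h10
    · intro z' hz'
      obtain ⟨ψ, hψ⟩ := conj_root P.emb ((D : M) * R j) z' hz'
      rw [← hψ, ← h9]
      refine (hsz ψ).trans ?_
      rw [hKK]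
      calc (t0 : ℝ) * (X j ^ (κ / 2) * X j ^ A')
          ≤ X j ^ (1 / 2 : ℝ) * (X j ^ (1 / 2 : ℝ) * X j ^ A') := by
            refine mul_le_mul h3 (mul_le_mul_of_nonneg_right
              (Real.rpow_le_rpow_of_exponent_le h1 (by linarith)) (by positivity)) (by positivity)
              (by positivity)
        _ = X j ^ (1 + A') := by
            rw [← Real.rpow_add hX0, ← Real.rpow_add hX0]
            congr 1
            ring
        _ ≤ X j ^ (1 + A' * (S.card + 1)) := Real.rpow_le_rpow_of_exponent_le h1 (by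
            have : 0 ≤ A' * (S.card : ℝ) := by positivity
            nlinarith)
    · intro n
      exact one_mem _
    · intro n
      beta_reduce
      generalize e.symm n = o
      rcases o with _ | ik
      · simp only [Option.elim]
        rw [Int.cast_natCast, Nat.abs_cast]
        exact hDκ
      · simp only [Option.elim]
        rw [Int.cast_zero, abs_zero]
        positivity
    · rw [← Equiv.sum_comp e]
      simp only [Equiv.symm_apply_apply]
      rw [Fintype.sum_option]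
      simp
    · refine ⟨1, one_ne_zero, ?_, ?_⟩
      · rw [Nat.cast_one]
        rw [Real.rpow_one] at hBig
        linarith
      · rw [Nat.cast_one, one_mul]
        have : IsIntegral ℤ ((D : ℤ) : ℂ) := isIntegral_algebraMap
        simpa using this
    · intro z' hz'
      have e1 : (D : ℂ) = P.emb (D : M) := by rw [map_natCast]
      rw [e1] at hz'
      obtain ⟨ψ, hψ⟩ := conj_root P.emb (D : M) z' hz'
      rw [← hψ, map_natCast, Complex.norm_natCast]
      rw [Real.rpow_one] at hBig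
      refine hDX.trans (le_trans ?_ hBig)
      calc X j ^ (κ / 4) ≤ X j ^ (1 : ℝ) := Real.rpow_le_rpow_of_exponent_le h1 (by linarith)
        _ = X j := Real.rpow_one _
    · exact_mod_cast hD0
    · rw [map_mul, map_natCast]
      field_simp

end Pool.Agent.Helper77.JN
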