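import Pool.Agent.Helper70.SUB.SheetW

/-!
The Subspace theorem along an ultrafilter in terms of bases.
-/

set_option autoImplicit false

namespace Pool.Agent.Helper77.JN

open Filter Finset Matrix Pool.Agent.Helper70.SUB Pool.Agent.Helper77.SUBK Pool.Agent.Helper70.SUBL
  Pool.Agent.Helper70.SUBW

/-- automorphisms defining the same place -/
noncomputable def cls {M : Type} [Field M] [NumberField M] {S : Finset ℕ} (P : PF S M)
    (v : Option ℕ) (σ : M ≃ₐ[ℚ] M) : Finset (M ≃ₐ[ℚ] M) :=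
  open Classical in univ.filter (fun τ => ∀ x, P.nv v (τ x) = P.nv v (σ x))

/-- an element of a finite set at which `f` is minimal -/
noncomputable def argmin {G : Type} [Inhabited G] (f : G → ℝ) (F : Finset G) : G :=
  open Classical in if h : F.Nonempty then (Finset.exists_min_image F f h).choose else default

theorem argmin_spec {G : Type} [Inhabited G] (f : G → ℝ) {F : Finset G} (h : F.Nonempty) :
    argmin f F ∈ F ∧ ∀ x ∈ F, f (argmin f F) ≤ f x := by
  classical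
  unfold argmin
  rw [dif_pos h]
  exact (Finset.exists_min_image F f h).choose_spec

/-- a representative of the place at which `f` is minimal -/
noncomputable def rep {M : Type} [Field M] [NumberField M] {S : Finset ℕ} (P : PF S M)
    (f : Option ℕ → (M ≃ₐ[ℚ] M) → ℝ) (v : Option ℕ) (σ : M ≃ₐ[ℚ] M) : M ≃ₐ[ℚ] M :=
  argmin (f v) (cls P v σ)

theorem mem_cls {M : Type} [Field M] [NumberField M] {S : Finset ℕ} (P : PF S M)
    (v : Option ℕ) (σ τ : M ≃ₐ[ℚ] M) :
    τ ∈ cls P v σ ↔ ∀ x, P.nv v (τ x) = P.nv v (σ x) := by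
  classical
  unfold cls
  simp

theorem rep_spec {M : Type} [Field M] [NumberField M] {S : Finset ℕ} (P : PF S M)
    (f : Option ℕ → (M ≃ₐ[ℚ] M) → ℝ) (v : Option ℕ) (σ : M ≃ₐ[ℚ] M) :
    (∀ x, P.nv v (rep P f v σ x) = P.nv v (σ x)) ∧ f v (rep P f v σ) ≤ f v σ := by
  have hne : (cls P v σ).Nonempty := ⟨σ, (mem_cls P v σ σ).2 fun _ => rfl⟩
  have h := argmin_spec (f v) hne
  exact ⟨(mem_cls P v σ _).1 h.1, h.2 σ ((mem_cls P v σ σ).2 fun _ => rfl)⟩

theorem rep_eq {M : Type} [Field M] [NumberField M] {S : Finset ℕ} (P : PF S M)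
    (f : Option ℕ → (M ≃ₐ[ℚ] M) → ℝ) (v : Option ℕ) (σ σ' : M ≃ₐ[ℚ] M)
    (h : ∀ x, P.nv v (σ x) = P.nv v (σ' x)) : rep P f v σ = rep P f v σ' := by
  have hc : cls P v σ = cls P v σ' := by
    ext τ
    rw [mem_cls, mem_cls]
    constructor
    · intro h1 x
      rw [h1 x, h x]
    · intro h1 x
      rw [h1 x, h x]
  unfold rep
  rw [hc]

/-- the Subspace theorem in terms of bases: the `g v σ i` are linearly independent linear
combinations of the `u k` -/
theorem subv (hSUB : ST_SUBTU) {M : Type} [Field M] [NumberField M] [IsGalois ℚ M] {S : Finset ℕ}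
    (P : PF S M) {κ : Type} [Fintype κ] [DecidableEq κ] [Nonempty κ] (φ : Ultrafilter ℕ)
    (X : ℕ → ℝ) (hS : ∀ p ∈ S, p.Prime) (hX : Tendsto X (φ : Filter ℕ) atTop)
    (u : κ → ℕ → M) (g : Option ℕ → (M ≃ₐ[ℚ] M) → κ → ℕ → M)
    (a : Option ℕ → (M ≃ₐ[ℚ] M) → κ → ℝ) (B : ℝ)
    (hD : ∀ ε' : ℝ, 0 < ε' → ∀ᶠ j in (φ : Filter ℕ), ∃ D : ℕ, D ≠ 0 ∧ (D : ℝ) ≤ X j ^ ε' ∧
      ∀ i, SI S ((D : M) * u i j))
    (hB : ∀ᶠ j in (φ : Filter ℕ), ∀ v ∈ plc S, ∀ (σ : M ≃ₐ[ℚ] M) (i : κ),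
      P.nv v (σ (u i j)) ≤ X j ^ B)
    (hg : ∀ v ∈ plc S, ∀ (σ : M ≃ₐ[ℚ] M) (i : κ), ∃ c : κ → M,
      ∀ᶠ j in (φ : Filter ℕ), g v σ i j = ∑ k, c k * u k j)
    (hgi : ∀ v ∈ plc S, ∀ (σ : M ≃ₐ[ℚ] M) (c : κ → M),
      (∀ᶠ j in (φ : Filter ℕ), ∑ i, c i * g v σ i j = 0) → c = 0)
    (hsz : ∀ v ∈ plc S, ∀ (σ : M ≃ₐ[ℚ] M) (i : κ) (ε : ℝ), 0 < ε →
      ∀ᶠ j in (φ : Filter ℕ), P.nv v (σ (g v σ i j)) ≤ X j ^ (a v σ i + ε))
    (hneg : ∑ v ∈ plc S, ∑ σ : M ≃ₐ[ℚ] M, ∑ i, a v σ i < 0) :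
    ∃ c : κ → M, c ≠ 0 ∧ ∀ᶠ j in (φ : Filter ℕ), ∑ i, c i * u i j = 0 := by
  classical
  have hg' : ∀ (v : Option ℕ) (σ : M ≃ₐ[ℚ] M) (i : κ), ∃ c : κ → M, v ∈ plc S →
      ∀ᶠ j in (φ : Filter ℕ), g v σ i j = ∑ k, c k * u k j := by
    intro v σ i
    by_cases hv : v ∈ plc S
    · obtain ⟨c, hc⟩ := hg v hv σ i
      exact ⟨c, fun _ => hc⟩
    · exact ⟨0, fun h => absurd h hv⟩
  choose L0 hL0 using hg'
  have hdet0 : ∀ v ∈ plc S, ∀ σ : M ≃ₐ[ℚ] M,
      (Matrix.of (L0 v σ) : Matrix κ κ M).det ≠ 0 := by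
    intro v hv σ hdet
    obtain ⟨c, hc0, hc⟩ := Matrix.exists_vecMul_eq_zero_iff.2 hdet
    apply hc0
    apply hgi v hv σ c
    have hall : ∀ᶠ j in (φ : Filter ℕ), ∀ i, g v σ i j = ∑ k, L0 v σ i k * u k j :=
      Filter.eventually_all.2 fun i => hL0 v σ i hv
    filter_upwards [hall] with j hj
    have h1 : ∑ i, c i * g v σ i j = ∑ k, (∑ i, c i * L0 v σ i k) * u k j := by
      simp only [hj, Finset.mul_sum, Finset.sum_mul]
      rw [Finset.sum_comm]
      refine Finset.sum_congr rfl fun k _ => Finset.sum_congr rfl fun i _ => ?_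
      ring
    rw [h1]
    refine Finset.sum_eq_zero fun k _ => ?_
    have h2 : ∑ i, c i * L0 v σ i k = 0 := by
      have := congrFun hc k
      simpa [Matrix.vecMul, dotProduct] using this
    rw [h2, zero_mul]
  set F : Option ℕ → (M ≃ₐ[ℚ] M) → ℝ := fun v σ => ∑ i, a v σ i with hF
  set L : Option ℕ → (M ≃ₐ[ℚ] M) → Matrix κ κ M := fun v σ => Matrix.of (L0 v (rep P F v σ)) with hL
  set s : ℝ := ∑ v ∈ plc S, ∑ σ : M ≃ₐ[ℚ] M, ∑ i, a v σ i with hs
  set N : ℝ := ((plc S).card : ℝ) * Fintype.card (M ≃ₐ[ℚ] M) * Fintype.card κ with hN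
  have hN0 : 0 ≤ N := by positivity
  set ε : ℝ := -s / (2 * (N + 1)) with hε
  have hε0 : 0 < ε := by
    apply div_pos <;> linarith
  have hNε : N * ε ≤ -s / 2 := by
    rw [hε]
    have h1 : (0 : ℝ) < N + 1 := by linarith
    rw [← sub_nonneg]
    have h2 : -s / 2 - N * (-s / (2 * (N + 1))) = -s / (2 * (N + 1)) := by
      field_simp
      ring
    rw [h2]
    exact hε0.le
  have hev : ∀ᶠ j in (φ : Filter ℕ), ∀ v ∈ plc S, ∀ (σ : M ≃ₐ[ℚ] M) (i : κ),
      P.nv v (σ ((L v σ).mulVec (fun k => u k j) i)) ≤ X j ^ (a v (rep P F v σ) i + ε) := by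
    rw [Filter.eventually_all_finset]
    intro v hv
    refine Filter.eventually_all.2 fun σ => Filter.eventually_all.2 fun i => ?_
    filter_upwards [hL0 v (rep P F v σ) i hv, hsz v hv (rep P F v σ) i ε hε0] with j h1 h2
    have h3 : (L v σ).mulVec (fun k => u k j) i = g v (rep P F v σ) i j := by
      rw [h1]
      rfl
    rw [h3, ← (rep_spec P F v σ).1]
    exact h2
  obtain ⟨c, hc0, hc⟩ := hSUB M S P κ L (-s / 2) B φ X (fun j k => u k j) inferInstance hS
    (fun v hv σ => hdet0 v hv (rep P F v σ))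
    (fun v _ σ σ' h => by
      show Matrix.of (L0 v (rep P F v σ)) = Matrix.of (L0 v (rep P F v σ'))
      rw [rep_eq P F v σ σ' h])
    (by linarith) hX hD hB
    (by
      filter_upwards [hev, hX.eventually_ge_atTop 1] with j hj hX1
      have hX0 : 0 < X j := by linarith
      calc ∏ v ∈ plc S, ∏ σ : M ≃ₐ[ℚ] M, ∏ i, P.nv v (σ ((L v σ).mulVec (fun k => u k j) i))
          ≤ ∏ v ∈ plc S, ∏ σ : M ≃ₐ[ℚ] M, ∏ i, X j ^ (a v (rep P F v σ) i + ε) := by
            refine Finset.prod_le_prod (fun v _ => Finset.prod_nonneg fun σ _ =>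
              Finset.prod_nonneg fun i _ => P.nn _ _) fun v hv => ?_
            refine Finset.prod_le_prod (fun σ _ => Finset.prod_nonneg fun i _ =>
              P.nn _ _) fun σ _ => ?_
            exact Finset.prod_le_prod (fun i _ => P.nn _ _) fun i _ => hj v hv σ i
        _ = X j ^ (∑ v ∈ plc S, ∑ σ : M ≃ₐ[ℚ] M, ∑ i, (a v (rep P F v σ) i + ε)) := by
            rw [Real.rpow_sum_of_pos hX0]
            refine Finset.prod_congr rfl fun v _ => ?_
            rw [Real.rpow_sum_of_pos hX0]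
            refine Finset.prod_congr rfl fun σ _ => ?_
            rw [Real.rpow_sum_of_pos hX0]
        _ ≤ X j ^ (-(-s / 2)) := by
            apply Real.rpow_le_rpow_of_exponent_le hX1
            have h1 : ∑ v ∈ plc S, ∑ σ : M ≃ₐ[ℚ] M, ∑ i, (a v (rep P F v σ) i + ε)
                ≤ ∑ v ∈ plc S, ∑ σ : M ≃ₐ[ℚ] M, (∑ i, a v σ i + Fintype.card κ * ε) := by
              refine Finset.sum_le_sum fun v _ => Finset.sum_le_sum fun σ _ => ?_
              rw [Finset.sum_add_distrib]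
              have h2 := (rep_spec P F v σ).2
              simp only [hF] at h2
              simp only [Finset.sum_const, Finset.card_univ, nsmul_eq_mul]
              linarith
            have h3 : ∑ v ∈ plc S, ∑ σ : M ≃ₐ[ℚ] M, (∑ i, a v σ i + Fintype.card κ * ε)
                = s + N * ε := by
              simp only [Finset.sum_add_distrib, Finset.sum_const, Finset.card_univ, nsmul_eq_mul]
              rw [hs, hN]
              ring
            linarith)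
  exact ⟨c, hc0, hc⟩

end Pool.Agent.Helper77.JN
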