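import Pool.Agent.Helper71.JN.SheetE
import Pool.Agent.Helper77.JN.IntZ

/-! Project JN, row ZW. -/

set_option autoImplicit false

namespace Pool.Agent.Helper77.JN

open Pool.Agent.Helper71.JN

/-- (ZW) -/
theorem ZW : ST_ZW := by
  intro F Ω _ _ _ _ I _ r D J α X Y d hJ hα hX hY hd hd0 heq h1 h2
  exact INTZ D J hJ α hα X Y d hX hY hd hd0 heq (fun i hi => (h1 i hi).1)
    (fun i hi => (h1 i hi).2.1) (fun i hi => (h1 i hi).2.2) h2

end Pool.Agent.Helper77.JN
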